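import Mathlib

set_option autoImplicit false

namespace Pool.Agent.H606Z.BP

open Finset

section prob
variable {V : Type} [Fintype V] [DecidableEq V]

/-- weight of a configuration -/
noncomputable def w (p : ℝ) (A : Finset V) : ℝ := p ^ A.card * (1 - p) ^ (Fintype.card V - A.card)

open Classical in
/-- probability of an event -/
noncomputable def Pr (p : ℝ) (E : Finset V → Prop) : ℝ := ∑ A : Finset V, if E A then w p A else 0

omit [DecidableEq V] in
lemma w_nonneg {p : ℝ} (h0 : 0 ≤ p) (h1 : p ≤ 1) (A : Finset V) : 0 ≤ w p A :=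
  mul_nonneg (pow_nonneg h0 _) (pow_nonneg (by linarith) _)

lemma sum_w_prod (p : ℝ) (f : V → ℝ) :
    ∑ A : Finset V, w p A * ∏ z ∈ A, f z = ∏ z, (p * f z + (1 - p)) := by
  rw [Finset.prod_add, Finset.powerset_univ]
  refine Finset.sum_congr rfl fun A _ => ?_
  rw [Finset.prod_mul_distrib, Finset.prod_const, Finset.prod_const, Finset.card_univ_sdiff, w]
  ring

lemma sum_w (p : ℝ) : ∑ A : Finset V, w p A = 1 := by
  simpa using sum_w_prod (V := V) p fun _ => 1

lemma Pr_compl (p : ℝ) (E : Finset V → Prop) : Pr p E + Pr p (fun A => ¬ E A) = 1 := by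
  rw [← sum_w (V := V) p, Pr, Pr, ← Finset.sum_add_distrib]
  refine Finset.sum_congr rfl fun A _ => ?_
  by_cases h : E A <;> simp [h]

omit [DecidableEq V] in
lemma Pr_le_sum {p : ℝ} (h0 : 0 ≤ p) (h1 : p ≤ 1) {ι : Type} (I : Finset ι) (E : Finset V → Prop)
    (F : ι → Finset V → Prop) (h : ∀ A, E A → ∃ i ∈ I, F i A) :
    Pr p E ≤ ∑ i ∈ I, Pr p (F i) := by
  unfold Pr
  rw [Finset.sum_comm]
  refine Finset.sum_le_sum fun A _ => ?_
  have hn : ∀ i ∈ I, 0 ≤ (@ite ℝ (F i A) (Classical.propDecidable _) (w p A) 0) := by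
    intro i _; split_ifs
    · exact w_nonneg h0 h1 A
    · exact le_rfl
  by_cases hE : E A
  · obtain ⟨i, hi, hF⟩ := h A hE
    refine le_trans ?_ (Finset.single_le_sum hn hi)
    simp [hE, hF]
  · simp only [hE, if_false]
    exact Finset.sum_nonneg hn

omit [DecidableEq V] in
lemma Pr_le_card {p : ℝ} (h0 : 0 ≤ p) (h1 : p ≤ 1) {ι : Type} (I : Finset ι) (E : Finset V → Prop)
    (F : ι → Finset V → Prop) (h : ∀ A, E A → ∃ i ∈ I, F i A) {b : ℝ}
    (hb : ∀ i ∈ I, Pr p (F i) ≤ b) : Pr p E ≤ I.card * b :=
  (Pr_le_sum h0 h1 I E F h).trans (by simpa using Finset.sum_le_card_nsmul I _ b hb)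

omit [DecidableEq V] in
lemma Pr_le_add {p : ℝ} (h0 : 0 ≤ p) (h1 : p ≤ 1) (E F G : Finset V → Prop)
    (h : ∀ A, E A → F A ∨ G A) : Pr p E ≤ Pr p F + Pr p G := by
  have := Pr_le_sum h0 h1 (univ : Finset Bool) E (fun b => if b then F else G) (by
    intro A hA
    rcases h A hA with h | h
    · exact ⟨true, by simp, by simpa using h⟩
    · exact ⟨false, by simp, by simpa using h⟩)
  simpa using this

lemma Pr_mem (p : ℝ) (x : V) : Pr p (fun A => x ∈ A) = p := by
  have h1 := Pr_compl p (fun A : Finset V => x ∈ A)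
  have h2 : Pr p (fun A : Finset V => ¬ x ∈ A) = 1 - p := by
    have h3 := sum_w_prod p (fun z : V => if z = x then 0 else 1)
    have h4 : ∏ z : V, (p * (if z = x then (0 : ℝ) else 1) + (1 - p)) = 1 - p := by
      rw [Finset.prod_eq_single x]
      · simp
      · intro b _ hb; simp [hb]
      · simp
    rw [← h4, ← h3, Pr]
    refine Finset.sum_congr rfl fun A _ => ?_
    by_cases hx : x ∈ A
    · rw [Finset.prod_eq_zero hx (by simp)]; simp [hx]
    · rw [Finset.prod_eq_one (fun z hz => by
        have : z ≠ x := fun e => hx (e ▸ hz)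
        simp [this])]
      simp [hx]
  linarith

lemma chernoff {p : ℝ} (h0 : 0 ≤ p) (h1 : p ≤ 1) (d : V → ℝ) {D l T : ℝ} (hd0 : ∀ z, 0 ≤ d z)
    (hd : ∀ z, d z ≤ D) (hl : |l| * D ≤ 1) (E : Finset V → Prop)
    (hE : ∀ A, E A → T ≤ l * ∑ z ∈ A, d z) :
    Pr p E ≤ Real.exp (-T + p * (l + l ^ 2 * D) * ∑ z, d z) := by
  have h2 : Pr p E ≤ Real.exp (-T) * ∑ A : Finset V, w p A * ∏ z ∈ A, Real.exp (l * d z) := by
    rw [Finset.mul_sum, Pr]
    refine Finset.sum_le_sum fun A _ => ?_
    have hw := w_nonneg h0 h1 A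
    rw [← Real.exp_sum, ← Finset.mul_sum, mul_left_comm, ← Real.exp_add]
    split_ifs with h
    · exact le_mul_of_one_le_right hw (Real.one_le_exp (by linarith [hE A h]))
    · positivity
  rw [sum_w_prod] at h2
  refine h2.trans ?_
  rw [Real.exp_add]
  apply mul_le_mul_of_nonneg_left _ (Real.exp_pos _).le
  rw [Finset.mul_sum, Real.exp_sum]
  refine Finset.prod_le_prod (fun z _ => by positivity) fun z _ => ?_
  have h3 : |l * d z| ≤ 1 := by
    rw [abs_mul, abs_of_nonneg (hd0 z)]
    exact (mul_le_mul_of_nonneg_left (hd z) (abs_nonneg l)).trans hl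
  have h4 := (abs_le.mp (Real.abs_exp_sub_one_sub_id_le h3)).2
  have h5 : (l * d z) ^ 2 ≤ l ^ 2 * D * d z := by
    have := mul_le_mul_of_nonneg_right (hd z) (hd0 z)
    nlinarith [sq_nonneg l]
  have h6 := Real.add_one_le_exp (p * (l + l ^ 2 * D) * d z)
  nlinarith

end prob

section cube
variable {n : ℕ}

/-- neighbours of `v` inside `S` -/
def nb (S : Finset (Fin n → Bool)) (v : Fin n → Bool) : Finset (Fin n → Bool) :=
  S.filter fun u => hammingDist u v = 1

lemma exists_flip {u v : Fin n → Bool} (h : hammingDist u v = 1) :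
    ∃ i, u = Function.update v i (!v i) := by
  obtain ⟨i, hi⟩ := Finset.card_eq_one.mp h
  refine ⟨i, funext fun j => ?_⟩
  have hj : j ∈ ({i | u i ≠ v i} : Finset _) ↔ j ∈ ({i} : Finset _) := by rw [hi]
  simp only [Finset.mem_filter, Finset.mem_univ, true_and, Finset.mem_singleton] at hj
  by_cases e : j = i
  · subst e
    have := hj.mpr rfl
    simp only [Function.update_self]
    revert this; cases u j <;> cases v j <;> simp
  · rw [Function.update_of_ne e]
    by_contra hc
    exact e (hj.mp hc)

lemma dist_flip_self (v : Fin n → Bool) (i : Fin n) :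
    hammingDist (Function.update v i (!v i)) v = 1 := by
  apply Finset.card_eq_one.mpr ⟨i, _⟩
  ext j
  by_cases e : j = i
  · subst e; simp
  · simp [e]

lemma dist_flip (v x : Fin n → Bool) (i : Fin n) (h : v i = x i) :
    hammingDist (Function.update v i (!v i)) x = hammingDist v x + 1 := by
  unfold hammingDist
  rw [← Finset.card_insert_of_notMem (a := i) (by simp [h])]
  congr 1
  ext j
  by_cases e : j = i
  · subst e; simp [h]
  · simp [e]

lemma card_nb_univ (v : Fin n → Bool) : (nb univ v).card = n := by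
  have : nb univ v = univ.image fun i => Function.update v i (!v i) := by
    ext u
    simp only [nb, Finset.mem_filter, Finset.mem_univ, true_and, Finset.mem_image]
    constructor
    · intro h; obtain ⟨i, hi⟩ := exists_flip h; exact ⟨i, hi.symm⟩
    · rintro ⟨i, rfl⟩; exact dist_flip_self v i
  rw [this, Finset.card_image_of_injective]
  · simp
  · intro i j hij
    by_contra e
    have := congrFun hij i
    simp [Function.update_of_ne e] at this

/-- at most `dist v x` neighbours of `v` fail to be one step further from `x` -/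
lemma card_down (v x : Fin n → Bool) (S : Finset (Fin n → Bool))
    (hS : ∀ u ∈ S, hammingDist u v = 1 ∧ hammingDist u x ≠ hammingDist v x + 1) :
    S.card ≤ hammingDist v x := by
  have : S ⊆ ({i | v i ≠ x i} : Finset _).image fun i => Function.update v i (!v i) := by
    intro u hu
    obtain ⟨i, rfl⟩ := exists_flip (hS u hu).1
    refine Finset.mem_image.mpr ⟨i, ?_, rfl⟩
    simp only [Finset.mem_filter, Finset.mem_univ, true_and]
    intro e
    exact (hS _ hu).2 (dist_flip v x i e)
  exact (Finset.card_le_card this).trans Finset.card_image_le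

/-- the sphere of radius `j` about `x` -/
def lev (x : Fin n → Bool) (j : ℕ) : Finset (Fin n → Bool) := univ.filter fun y => hammingDist y x = j

lemma card_lev (x : Fin n → Bool) (j : ℕ) : (lev x j).card ≤ n ^ j := by
  have : (lev x j).card ≤ (Finset.powersetCard j (univ : Finset (Fin n))).card := by
    refine Finset.card_le_card_of_injOn (fun y => ({i | y i ≠ x i} : Finset _)) ?_ ?_
    · intro y hy
      simp only [lev, Finset.coe_filter, Finset.mem_univ, true_and, Set.mem_ofPred_eq] at hy
      simp only [Finset.mem_coe, Finset.mem_powersetCard, Finset.subset_univ, true_and]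
      exact hy
    · intro y _ z _ h
      funext i
      have : i ∈ ({i | y i ≠ x i} : Finset _) ↔ i ∈ ({i | z i ≠ x i} : Finset _) := by
        simp only at h; rw [h]
      simp only [Finset.mem_filter, Finset.mem_univ, true_and] at this
      revert this; cases y i <;> cases z i <;> cases x i <;> simp
  rw [Finset.card_powersetCard, Finset.card_univ, Fintype.card_fin] at this
  exact this.trans (Nat.choose_le_pow n j)

/-- number of neighbours in `Y` of a vertex on the sphere of radius `j + 1` -/
def dg (x : Fin n → Bool) (j : ℕ) (Y : Finset (Fin n → Bool)) (z : Fin n → Bool) : ℕ :=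
  if hammingDist z x = j + 1 then (nb Y z).card else 0

lemma dg_le (x : Fin n → Bool) (j : ℕ) (Y : Finset (Fin n → Bool)) (hY : Y ⊆ lev x j)
    (z : Fin n → Bool) : dg x j Y z ≤ j + 1 := by
  unfold dg
  split_ifs with h
  · rw [← h]
    refine card_down z x _ fun u hu => ?_
    simp only [nb, Finset.mem_filter] at hu
    have := hY hu.1
    simp only [lev, Finset.mem_filter, Finset.mem_univ, true_and] at this
    exact ⟨hu.2, by omega⟩
  · omega

lemma sum_dg (x : Fin n → Bool) (j : ℕ) (Y A : Finset (Fin n → Bool)) :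
    ∑ z ∈ A, dg x j Y z = ∑ y ∈ Y, ((nb A y).filter fun z => hammingDist z x = j + 1).card := by
  simp only [dg, nb, Finset.card_filter, Finset.sum_filter]
  rw [Finset.sum_comm]
  refine Finset.sum_congr rfl fun z _ => ?_
  split_ifs with h
  · simp [hammingDist_comm z]
  · simp

lemma nb_le_up (x : Fin n → Bool) (j : ℕ) (A : Finset (Fin n → Bool)) {y : Fin n → Bool}
    (hy : y ∈ lev x j) :
    (nb A y).card ≤ ((nb A y).filter fun z => hammingDist z x = j + 1).card + j := by
  simp only [lev, Finset.mem_filter, Finset.mem_univ, true_and] at hy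
  rw [← Finset.card_filter_add_card_filter_not (s := nb A y) (fun z => hammingDist z x = j + 1)]
  apply Nat.add_le_add_left
  rw [← hy]
  refine card_down y x _ fun u hu => ?_
  simp only [nb, Finset.mem_filter] at hu
  exact ⟨hu.1.2, hu.2⟩

end cube

end Pool.Agent.H606Z.BP
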