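import Pool.Agent.H606Z.BP1

set_option autoImplicit false

namespace Pool.Agent.H606Z.BP

open Finset

variable {n : ℕ}

/-- `A` percolates with threshold `R` -/
def Perc (R : ℝ) (A : Finset (Fin n → Bool)) : Prop :=
  ∀ S : Finset (Fin n → Bool), A ⊆ S → (∀ v, R ≤ ((nb S v).card : ℝ) → v ∈ S) → S = univ

open Classical in
/-- the generous process -/
noncomputable def B (R : ℝ) (k t : ℕ) (A : Finset (Fin n → Bool)) : ℕ → Finset (Fin n → Bool)
  | 0 => A
  | i + 1 => B R k t A i ∪ univ.filter fun v => R - ((k : ℝ) - i) * t ≤ (nb (B R k t A i) v).card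

lemma mem_B_succ {R : ℝ} {k t : ℕ} {A : Finset (Fin n → Bool)} {i : ℕ} {v : Fin n → Bool} :
    v ∈ B R k t A (i + 1) ↔
      v ∈ B R k t A i ∨ R - ((k : ℝ) - i) * t ≤ (nb (B R k t A i) v).card := by
  simp [B]

lemma sub_B (R : ℝ) (k t : ℕ) (A : Finset (Fin n → Bool)) (i : ℕ) : A ⊆ B R k t A i := by
  induction i with
  | zero => exact subset_rfl
  | succ i ih => exact fun v hv => mem_B_succ.mpr (Or.inl (ih hv))

/-- newly infected vertices -/
noncomputable def Nw (R : ℝ) (k t : ℕ) (A : Finset (Fin n → Bool)) (i : ℕ) :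
    Finset (Fin n → Bool) := B R k t A (i + 1) \ B R k t A i

lemma many_new {R : ℝ} {k t : ℕ} {A : Finset (Fin n → Bool)} {i : ℕ} {v : Fin n → Bool}
    (hv : v ∈ Nw R k t A (i + 1)) : t ≤ (nb (Nw R k t A i) v).card := by
  simp only [Nw, Finset.mem_sdiff] at hv
  have h1 := (mem_B_succ.mp hv.1).resolve_left hv.2
  have h2 := hv.2
  rw [mem_B_succ, not_or, not_le] at h2
  have h3 : (nb (B R k t A (i + 1)) v).card ≤
      (nb (B R k t A i) v).card + (nb (Nw R k t A i) v).card := by
    refine le_trans (Finset.card_le_card ?_) (Finset.card_union_le _ _)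
    intro u hu
    simp only [nb, Nw, Finset.mem_filter, Finset.mem_union, Finset.mem_sdiff] at hu ⊢
    tauto
  have h4 : ((nb (B R k t A (i + 1)) v).card : ℝ) ≤
      (nb (B R k t A i) v).card + (nb (Nw R k t A i) v).card := by exact_mod_cast h3
  have h5 : (t : ℝ) ≤ (nb (Nw R k t A i) v).card := by
    push_cast at h1
    linarith [h2.2]
  exact_mod_cast h5

lemma grow {R : ℝ} {k s : ℕ} {A : Finset (Fin n → Bool)} {x : Fin n → Bool} {i : ℕ} (hi : i ≤ k)
    (hx : x ∈ Nw R k (k * (s + 1)) A i) (j l : ℕ) (hjl : j + l = i) :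
    s ^ j ≤ (lev x j ∩ Nw R k (k * (s + 1)) A l).card := by
  induction j generalizing l with
  | zero =>
    have : l = i := by omega
    subst this
    rw [pow_zero]
    exact Finset.card_pos.mpr ⟨x, by simp [lev, hx]⟩
  | succ j ih =>
    have h1 := ih (l + 1) (by omega)
    set Y := lev x j ∩ Nw R k (k * (s + 1)) A (l + 1) with hY
    set Z := lev x (j + 1) ∩ Nw R k (k * (s + 1)) A l with hZ
    have h2 : ∑ z ∈ Z, dg x j Y z ≤ Z.card * (j + 1) := by
      simpa using Finset.sum_le_card_nsmul Z _ (j + 1)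
        fun z _ => dg_le x j Y Finset.inter_subset_left z
    rw [sum_dg] at h2
    have h3 : Y.card * (s * (j + 1)) ≤
        ∑ y ∈ Y, ((nb Z y).filter fun z => hammingDist z x = j + 1).card := by
      have := Finset.card_nsmul_le_sum Y
        (fun y => ((nb Z y).filter fun z => hammingDist z x = j + 1).card) (s * (j + 1)) ?_
      · simpa using this
      intro y hy
      rw [hY, Finset.mem_inter] at hy
      have h4 := many_new hy.2
      have h5 := nb_le_up x j (Nw R k (k * (s + 1)) A l) hy.1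
      have h6 : ((nb (Nw R k (k * (s + 1)) A l) y).filter fun z => hammingDist z x = j + 1) =
          ((nb Z y).filter fun z => hammingDist z x = j + 1) := by
        ext u
        simp only [nb, hZ, lev, Finset.mem_filter, Finset.mem_inter, Finset.mem_univ, true_and]
        tauto
      rw [h6] at h5
      have h7 : s * (j + 1) ≤ s * k := Nat.mul_le_mul_left s (by omega)
      have h8 : k * (s + 1) = s * k + k := by ring
      omega
    have h4 : Y.card * s ≤ Z.card := by
      have := h3.trans h2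
      rw [← mul_assoc] at this
      exact Nat.le_of_mul_le_mul_right this (by omega)
    calc s ^ (j + 1) = s ^ j * s := pow_succ _ _
      _ ≤ Y.card * s := Nat.mul_le_mul_right s h1
      _ ≤ _ := h4

/-- all vertices of `Y` have many neighbours in `A` -/
def Heavy (T : ℝ) (Y A : Finset (Fin n → Bool)) : Prop := ∀ y ∈ Y, T ≤ ((nb A y).card : ℝ)

lemma witness {R : ℝ} {k s : ℕ} {A : Finset (Fin n → Bool)} {x : Fin n → Bool} {i : ℕ} (hi : i ≤ k)
    (hx : x ∈ Nw R k (k * (s + 1)) A i) {m : ℕ} (hm : m ≤ s ^ i) :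
    ∃ Y ∈ Finset.powersetCard m (lev x i), Heavy (R - (k : ℝ) * (k * (s + 1) : ℕ)) Y A := by
  obtain ⟨Y, hY, hc⟩ := Finset.exists_subset_card_eq (hm.trans (grow hi hx i 0 rfl))
  refine ⟨Y, Finset.mem_powersetCard.mpr ⟨hY.trans Finset.inter_subset_left, hc⟩, ?_⟩
  intro y hy
  have h1 := (Finset.mem_inter.mp (hY hy)).2
  simp only [Nw, Finset.mem_sdiff] at h1
  have h2 := (mem_B_succ.mp h1.1).resolve_left h1.2
  simpa [B] using h2

lemma perc_cases {R : ℝ} {k s : ℕ} {A : Finset (Fin n → Bool)} (x0 : Fin n → Bool)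
    (h : Perc R A) : x0 ∈ A ∨ (∃ i ∈ range k, x0 ∈ Nw R k (k * (s + 1)) A i) ∨
      ∃ x, x ∈ Nw R k (k * (s + 1)) A k := by
  by_contra hc
  push Not at hc
  obtain ⟨h0, h1, h2⟩ := hc
  have h3 : B R k (k * (s + 1)) A k = univ := by
    refine h _ (sub_B _ _ _ _ _) fun v hv => ?_
    by_contra hv'
    refine h2 v (Finset.mem_sdiff.mpr ⟨mem_B_succ.mpr (Or.inr ?_), hv'⟩)
    simpa using hv
  have h4 : ∀ i, i ≤ k → x0 ∉ B R k (k * (s + 1)) A i := by
    intro i hi
    induction i with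
    | zero => exact h0
    | succ i ih =>
      intro hx
      exact h1 i (Finset.mem_range.mpr (by omega)) (Finset.mem_sdiff.mpr ⟨hx, ih (by omega)⟩)
  exact h4 k le_rfl (h3 ▸ Finset.mem_univ _)

lemma pr_heavy {p R ε : ℝ} (h0 : 0 ≤ p) (h1 : p ≤ 1) (hε : 0 < ε) (hε1 : ε ≤ 1) (hR : 0 ≤ R)
    (hp : p * n ≤ (1 - ε) * R) {k : ℕ} {T : ℝ} (hT : (1 - ε / 3) * R ≤ T - k)
    (x : Fin n → Bool) {j : ℕ} (hj : j ≤ k) (Y : Finset (Fin n → Bool)) (hY : Y ⊆ lev x j) :
    Pr p (Heavy T Y) ≤ Real.exp (-(ε ^ 2 / (9 * (k + 1)) * R * Y.card)) := by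
  have hk : (0 : ℝ) < k + 1 := by positivity
  set l : ℝ := ε / (3 * (k + 1)) with hl
  have hl0 : 0 < l := by positivity
  have hlD : l * (k + 1) = ε / 3 := by rw [hl]; field_simp
  refine (chernoff h0 h1 (fun z => (dg x j Y z : ℝ)) (D := k + 1) (l := l)
    (T := l * (Y.card * ((1 - ε / 3) * R))) (fun z => Nat.cast_nonneg _) (fun z => ?_) ?_ _
    (fun A hA => ?_)).trans ?_
  · have := dg_le x j Y hY z
    have h2 : dg x j Y z ≤ k + 1 := by omega
    exact_mod_cast h2
  · rw [abs_of_pos hl0, hlD]; linarith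
  · apply mul_le_mul_of_nonneg_left _ hl0.le
    rw [← Nat.cast_sum, sum_dg, Nat.cast_sum]
    have := Finset.card_nsmul_le_sum Y
      (fun y => (((nb A y).filter fun z => hammingDist z x = j + 1).card : ℝ)) ((1 - ε / 3) * R) ?_
    · simpa using this
    intro y hy
    have h2 := hA y hy
    have h3 : ((nb A y).card : ℝ) ≤
        ((nb A y).filter fun z => hammingDist z x = j + 1).card + j := by
      exact_mod_cast nb_le_up x j A (hY hy)
    have h4 : (j : ℝ) ≤ k := by exact_mod_cast hj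
    linarith
  · apply Real.exp_le_exp.mpr
    have h2 : ∑ z, (dg x j Y z : ℝ) ≤ Y.card * n := by
      rw [← Nat.cast_sum, sum_dg]
      have := Finset.sum_le_card_nsmul Y
        (fun y => ((nb univ y).filter fun z => hammingDist z x = j + 1).card) n
        fun y _ => (Finset.card_filter_le _ _).trans (card_nb_univ y).le
      exact_mod_cast this
    have h3 : l + l ^ 2 * (k + 1) = l * (1 + ε / 3) := by rw [← hlD]; ring
    have h4 : ε ^ 2 / (9 * (k + 1)) = l * (ε / 3) := by rw [hl]; field_simp; ring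
    rw [h3, h4]
    have hY0 : (0 : ℝ) ≤ Y.card := Nat.cast_nonneg _
    have h5 : p * (l * (1 + ε / 3)) * ∑ z, (dg x j Y z : ℝ) ≤
        p * (l * (1 + ε / 3)) * (Y.card * n) := mul_le_mul_of_nonneg_left h2 (by positivity)
    have h6 : (l * (1 + ε / 3) * Y.card) * (p * n) ≤ (l * (1 + ε / 3) * Y.card) * ((1 - ε) * R) :=
      mul_le_mul_of_nonneg_left hp (by positivity)
    have h7 : 0 ≤ l * Y.card * R * ε ^ 2 := by positivity
    nlinarith

lemma pr_perc_le {p R ε : ℝ} (h0 : 0 ≤ p) (h1 : p ≤ 1) (hε : 0 < ε) (hε1 : ε ≤ 1) (hR : 0 ≤ R)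
    (hp : p * n ≤ (1 - ε) * R) {k s : ℕ} (hs : 1 ≤ s) (hn : 1 ≤ n)
    (hT : (k : ℝ) * (k * (s + 1) : ℕ) + k ≤ ε / 3 * R) :
    Pr p (Perc (n := n) R) ≤ p + (k * ((n : ℝ) ^ k * Real.exp (-(ε ^ 2 / (9 * (k + 1)) * R))) +
      2 ^ n * ((n : ℝ) ^ k * Real.exp (-(ε ^ 2 / (9 * (k + 1)) * R))) ^ (s ^ k)) := by
  classical
  set x0 : Fin n → Bool := fun _ => false
  set c : ℝ := ε ^ 2 / (9 * (k + 1)) * R with hc
  have key : ∀ (x : Fin n → Bool) (i m : ℕ), i ≤ k → m ≤ s ^ i →
      Pr p (fun A => x ∈ Nw R k (k * (s + 1)) A i) ≤ ((n : ℝ) ^ k * Real.exp (-c)) ^ m := by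
    intro x i m hi hm
    refine (Pr_le_card h0 h1 (Finset.powersetCard m (lev x i)) _
      (fun Y => Heavy (R - (k : ℝ) * (k * (s + 1) : ℕ)) Y) (fun A hA => witness hi hA hm)
      (b := Real.exp (-c) ^ m) fun Y hY => ?_).trans ?_
    · rw [Finset.mem_powersetCard] at hY
      have := pr_heavy h0 h1 hε hε1 hR hp (k := k) (T := R - (k : ℝ) * (k * (s + 1) : ℕ))
        (by linarith) x hi Y hY.1
      rw [hY.2] at this
      rw [← Real.exp_nat_mul]
      convert this using 2
      ring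
    · rw [mul_pow]
      apply mul_le_mul_of_nonneg_right _ (by positivity)
      rw [Finset.card_powersetCard]
      have h2 : (lev x i).card.choose m ≤ (n ^ k) ^ m :=
        (Nat.choose_le_pow _ _).trans (Nat.pow_le_pow_left
          ((card_lev x i).trans (Nat.pow_le_pow_right hn hi)) m)
      exact_mod_cast h2
  refine (Pr_le_add h0 h1 _ _ _ fun A hA => perc_cases (k := k) (s := s) x0 hA).trans ?_
  rw [Pr_mem]
  apply add_le_add_right
  refine (Pr_le_add h0 h1 _ _ _ fun A hA => hA).trans (add_le_add ?_ ?_)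
  · refine (Pr_le_card h0 h1 (range k) _ (fun i A => x0 ∈ Nw R k (k * (s + 1)) A i)
      (fun A hA => hA) (b := (n : ℝ) ^ k * Real.exp (-c)) fun i hi => ?_).trans (by simp)
    simpa using key x0 i 1 (Finset.mem_range.mp hi).le (Nat.one_le_pow _ _ hs)
  · refine (Pr_le_card h0 h1 univ _ (fun x A => x ∈ Nw R k (k * (s + 1)) A k)
      (fun A ⟨x, hx⟩ => ⟨x, Finset.mem_univ _, hx⟩) fun x _ => key x k _ le_rfl le_rfl).trans ?_
    simp

lemma pr_not_perc_le {p R ε : ℝ} (h0 : 0 ≤ p) (h1 : p ≤ 1) (hε : 0 < ε) (hε1 : ε ≤ 1) (hR : 0 ≤ R)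
    (hp : p * n = (1 + ε) * R) (hRn : 2 * R ≤ n) (hn : 8 ≤ ε * n) :
    Pr p (fun A => ¬ Perc (n := n) R A) ≤ 2 ^ n * (2 ^ n * Real.exp (-(ε ^ 2 / 64 * R * n))) := by
  classical
  have hn0 : (0 : ℝ) < n := by nlinarith
  refine (Pr_le_card h0 h1 (univ : Finset (Fin n → Bool)) _
    (fun x A => ∃ Y ∈ (nb univ x).powerset.filter (fun Y => (n : ℝ) ≤ 2 * Y.card),
      ∀ y ∈ Y, ((nb A y).card : ℝ) ≤ R) (fun A hA => ?_)
    (b := 2 ^ n * Real.exp (-(ε ^ 2 / 64 * R * n))) fun x _ => ?_).trans (by simp)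
  · unfold Perc at hA
    push Not at hA
    obtain ⟨S, hAS, hS, hne⟩ := hA
    obtain ⟨x, hx⟩ : ∃ x, x ∉ S := by
      by_contra hc
      push Not at hc
      exact hne (Finset.eq_univ_of_forall hc)
    have hlt : ∀ v, v ∉ S → ((nb S v).card : ℝ) < R := fun v hv => by
      by_contra hc
      exact hv (hS v (not_lt.mp hc))
    refine ⟨x, Finset.mem_univ _, nb univ x \ S, ?_, fun y hy => ?_⟩
    · simp only [Finset.mem_filter, Finset.mem_powerset, Finset.sdiff_subset, true_and]
      have h2 := Finset.card_sdiff_add_card_inter (nb univ x) S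
      have h3 : nb univ x ∩ S = nb S x := by
        ext u; simp [nb, and_comm]
      rw [h3, card_nb_univ] at h2
      have h4 : ((nb univ x \ S).card : ℝ) + (nb S x).card = n := by exact_mod_cast h2
      linarith [hlt x hx]
    · have h2 := hlt y (Finset.mem_sdiff.mp hy).2
      have h3 : ((nb A y).card : ℝ) ≤ (nb S y).card := by
        exact_mod_cast Finset.card_le_card (Finset.filter_subset_filter _ hAS)
      linarith
  · refine (Pr_le_card h0 h1 _ _ (fun Y A => ∀ y ∈ Y, ((nb A y).card : ℝ) ≤ R) (fun A hA => hA)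
      (b := Real.exp (-(ε ^ 2 / 64 * R * n))) fun Y hY => ?_).trans ?_
    · simp only [Finset.mem_filter, Finset.mem_powerset] at hY
      have hY1 : Y ⊆ lev x 1 := hY.1
      refine (chernoff h0 h1 (fun z => (dg x 1 Y z : ℝ)) (D := 2) (l := -(ε / 8))
        (T := -(ε / 8) * (Y.card * R)) (fun z => Nat.cast_nonneg _) (fun z => ?_) ?_ _
        (fun A hA => ?_)).trans ?_
      · exact_mod_cast dg_le x 1 Y hY1 z
      · rw [abs_neg, abs_of_pos (by positivity)]; linarith
      · apply mul_le_mul_of_nonpos_left _ (by linarith)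
        rw [← Nat.cast_sum, sum_dg, Nat.cast_sum]
        have := Finset.sum_le_card_nsmul Y
          (fun y => (((nb A y).filter fun z => hammingDist z x = 1 + 1).card : ℝ)) R ?_
        · simpa using this
        intro y hy
        refine le_trans ?_ (hA y hy)
        exact_mod_cast Finset.card_filter_le _ _
      · apply Real.exp_le_exp.mpr
        have h2 : (Y.card : ℝ) * (n - 1) ≤ ∑ z, (dg x 1 Y z : ℝ) := by
          rw [← Nat.cast_sum, sum_dg, Nat.cast_sum]
          have := Finset.card_nsmul_le_sum Y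
            (fun y => (((nb univ y).filter fun z => hammingDist z x = 1 + 1).card : ℝ))
            ((n : ℝ) - 1) ?_
          · simpa using this
          intro y hy
          have h3 := nb_le_up x 1 univ (hY1 hy)
          rw [card_nb_univ] at h3
          have h4 : (n : ℝ) ≤ ((nb univ y).filter fun z => hammingDist z x = 1 + 1).card + 1 := by
            exact_mod_cast h3
          linarith
        have h3 : -(ε / 8) + (-(ε / 8)) ^ 2 * 2 = -(ε / 8 * (1 - ε / 4)) := by ring
        rw [h3]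
        have hY0 : (0 : ℝ) ≤ Y.card := Nat.cast_nonneg _
        have h4 : (1 + ε) * R * (1 - ε / 8) ≤ p * (n - 1) := by
          rw [← hp]; nlinarith
        have h5 : (1 + ε / 4) * R ≤ (1 - ε / 4) * (p * (n - 1)) := by
          have h6 : (1 - ε / 4) * ((1 + ε) * R * (1 - ε / 8)) ≤ (1 - ε / 4) * (p * (n - 1)) :=
            mul_le_mul_of_nonneg_left h4 (by linarith)
          have h7 : 1 + ε / 4 ≤ (1 - ε / 4) * ((1 + ε) * (1 - ε / 8)) := by nlinarith
          nlinarith
        have h6 : p * (ε / 8 * (1 - ε / 4)) * (Y.card * (n - 1)) ≤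
            p * (ε / 8 * (1 - ε / 4)) * ∑ z, (dg x 1 Y z : ℝ) :=
          mul_le_mul_of_nonneg_left h2 (mul_nonneg h0 (mul_nonneg (by linarith) (by linarith)))
        have h7 : (ε / 8 * Y.card) * ((1 + ε / 4) * R) ≤
            (ε / 8 * Y.card) * ((1 - ε / 4) * (p * (n - 1))) :=
          mul_le_mul_of_nonneg_left h5 (by positivity)
        have h8 : (ε ^ 2 / 64 * R) * n ≤ (ε ^ 2 / 64 * R) * (2 * Y.card) :=
          mul_le_mul_of_nonneg_left hY.2 (by positivity)
        nlinarith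
    · apply mul_le_mul_of_nonneg_right _ (Real.exp_pos _).le
      have := Finset.card_filter_le (nb univ x).powerset (fun Y => (n : ℝ) ≤ 2 * Y.card)
      rw [Finset.card_powerset, card_nb_univ] at this
      exact_mod_cast this

end Pool.Agent.H606Z.BP
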