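import Pool.Agent.H606Z.BP2

set_option autoImplicit false

namespace Pool.Agent.H606Z.BP

open Finset Filter Topology

lemma two_pow_le_exp (n : ℕ) : (2 : ℝ) ^ n ≤ Real.exp n := by
  rw [← mul_one (n : ℝ), Real.exp_nat_mul]
  exact pow_le_pow_left₀ (by norm_num) (by linarith [Real.add_one_le_exp 1]) n

lemma tend_R {a : ℝ} (ha : 0 < a) : Tendsto (fun n : ℕ => (n : ℝ) ^ a) atTop atTop :=
  (tendsto_rpow_atTop ha).comp tendsto_natCast_atTop_atTop

lemma tend_q {a : ℝ} (ha : a < 1) : Tendsto (fun n : ℕ => (n : ℝ) ^ (a - 1)) atTop (𝓝 0) := by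
  have := (tendsto_rpow_neg_atTop (y := 1 - a) (by linarith)).comp
    (tendsto_natCast_atTop_atTop (R := ℝ))
  simpa [Function.comp_def] using this

lemma rpow_mul_self {a : ℝ} {n : ℕ} (hn : 1 ≤ n) : (n : ℝ) ^ (a - 1) * n = (n : ℝ) ^ a := by
  have : (0 : ℝ) < n := by exact_mod_cast hn
  rw [Real.rpow_sub_one this.ne']; field_simp

lemma upper {a ε : ℝ} (ha : 0 < a) (ha1 : a < 1) (hε : 0 < ε) (hε1 : ε ≤ 1) :
    ∀ᶠ n : ℕ in atTop, (1 + ε) * (n : ℝ) ^ (a - 1) ≤ 1 ∧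
      1 / 2 ≤ Pr ((1 + ε) * (n : ℝ) ^ (a - 1)) (Perc (n := n) ((n : ℝ) ^ a)) := by
  filter_upwards [(tend_q ha1).eventually (ge_mem_nhds (show (0 : ℝ) < 1 / 2 by norm_num)),
    (tend_R ha).eventually_ge_atTop (192 / ε ^ 2),
    (tendsto_natCast_atTop_atTop (R := ℝ)).eventually_ge_atTop (8 / ε),
    eventually_ge_atTop 1] with n h1 h2 h3 h4
  have hn : (1 : ℝ) ≤ n := by exact_mod_cast h4
  have hq : 0 ≤ (n : ℝ) ^ (a - 1) := by positivity
  have hp1 : (1 + ε) * (n : ℝ) ^ (a - 1) ≤ 1 := by nlinarith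
  refine ⟨hp1, ?_⟩
  have e := rpow_mul_self (a := a) h4
  have h5 := pr_not_perc_le (n := n) (R := (n : ℝ) ^ a) (by positivity) hp1 hε hε1 (by positivity)
    (by rw [mul_assoc, e]) (by rw [← e]; nlinarith)
    (by rw [div_le_iff₀ hε] at h3; linarith)
  have h6 := Pr_compl ((1 + ε) * (n : ℝ) ^ (a - 1)) (Perc (n := n) ((n : ℝ) ^ a))
  have h7 : 3 ≤ ε ^ 2 / 64 * (n : ℝ) ^ a := by
    rw [div_le_iff₀ (by positivity)] at h2; linarith
  have h8 : (2 : ℝ) ^ n * (2 ^ n * Real.exp (-(ε ^ 2 / 64 * (n : ℝ) ^ a * n))) ≤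
      Real.exp n * (Real.exp n * Real.exp (-(ε ^ 2 / 64 * (n : ℝ) ^ a * n))) := by
    gcongr <;> exact two_pow_le_exp n
  rw [← Real.exp_add, ← Real.exp_add] at h8
  have h9 : Real.exp (n + (n + -(ε ^ 2 / 64 * (n : ℝ) ^ a * n))) ≤ Real.exp (-1) :=
    Real.exp_le_exp.mpr (by nlinarith)
  have h10 : Real.exp (-1) ≤ 1 / 2 := by
    rw [Real.exp_neg, ← one_div]
    exact one_div_le_one_div_of_le (by norm_num) (by linarith [Real.add_one_le_exp 1])
  linarith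

lemma lower {a ε : ℝ} (ha : 0 < a) (ha1 : a < 1) (hε : 0 < ε) (hε1 : ε ≤ 1) :
    ∀ᶠ n : ℕ in atTop, ∀ p : ℝ, 0 ≤ p → p ≤ (1 - ε) * (n : ℝ) ^ (a - 1) →
      Pr p (Perc (n := n) ((n : ℝ) ^ a)) < 1 / 2 := by
  obtain ⟨k, hk⟩ := exists_nat_ge (1 / a)
  have hak : 1 ≤ a * k := by rw [div_le_iff₀ ha] at hk; linarith
  have hk0 : (0 : ℝ) < k := by
    by_contra h
    nlinarith
  have hk1 : (1 : ℝ) ≤ k := by exact_mod_cast (show 1 ≤ k from Nat.cast_pos.mp hk0)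
  set c : ℝ := ε ^ 2 / (9 * (k + 1)) with hc
  have hc0 : 0 < c := by positivity
  set b : ℝ := ε / (6 * (k : ℝ) ^ 2) with hb
  have hb0 : 0 < b := by positivity
  have hlog : ∀ᶠ n : ℕ in atTop, ‖Real.log n‖ ≤ c / (2 * k) * ‖(n : ℝ) ^ a‖ :=
    (tendsto_natCast_atTop_atTop (R := ℝ)).eventually
      ((isLittleO_log_rpow_atTop ha).bound (by positivity))
  have hexp : Tendsto (fun n : ℕ => (k : ℝ) * Real.exp (-(c / 2 * (n : ℝ) ^ a))) atTop (𝓝 0) := by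
    have := (Real.tendsto_exp_neg_atTop_nhds_zero.comp
      ((tend_R ha).const_mul_atTop (show 0 < c / 2 by positivity))).const_mul (k : ℝ)
    simpa using this
  filter_upwards [(tend_q ha1).eventually (ge_mem_nhds (show (0 : ℝ) < 1 / 8 by norm_num)),
    (tend_R ha).eventually_ge_atTop (3 / b), (tend_R ha).eventually_ge_atTop (8 / (c * b ^ k)),
    hlog, hexp.eventually (ge_mem_nhds (show (0 : ℝ) < 1 / 8 by norm_num)),
    eventually_ge_atTop 1] with n h1 h2 h3 h4 h5 h6 p hp0 hp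
  have hn : (1 : ℝ) ≤ n := by exact_mod_cast h6
  have hq : 0 ≤ (n : ℝ) ^ (a - 1) := by positivity
  set R : ℝ := (n : ℝ) ^ a with hR
  have hR0 : 0 ≤ R := by positivity
  have hp8 : p ≤ 1 / 8 := by nlinarith
  have h7 : 3 ≤ b * R := by rw [div_le_iff₀ hb0] at h2; linarith
  have h8 : 3 ≤ ⌊2 * b * R⌋₊ := Nat.le_floor (by push_cast; linarith)
  obtain ⟨s, hs⟩ : ∃ s, ⌊2 * b * R⌋₊ = s + 2 := ⟨⌊2 * b * R⌋₊ - 2, by omega⟩
  have h9 : (s : ℝ) + 2 ≤ 2 * b * R := by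
    have := Nat.floor_le (a := 2 * b * R) (by positivity)
    rw [hs] at this; push_cast at this; exact this
  have h10 : b * R ≤ s := by
    have := Nat.lt_floor_add_one (2 * b * R)
    rw [hs] at this; push_cast at this; linarith
  have h11 := pr_perc_le (n := n) (R := R) hp0 (by linarith) hε hε1 hR0
    (by rw [hR, ← rpow_mul_self (a := a) h6, ← mul_assoc]; gcongr) (k := k) (s := s) (by omega) h6
    (by
      have e : ε / 3 * R = (k : ℝ) ^ 2 * (2 * b * R) := by rw [hb]; field_simp; ring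
      rw [e]; push_cast
      nlinarith [mul_le_mul_of_nonneg_left h9 (sq_nonneg (k : ℝ))])
  rw [← hc] at h11
  have h12 : (n : ℝ) ^ k * Real.exp (-(c * R)) ≤ Real.exp (-(c / 2 * R)) := by
    rw [Real.norm_of_nonneg (Real.log_nonneg hn), Real.norm_of_nonneg hR0] at h4
    have e : (n : ℝ) ^ k = Real.exp (k * Real.log n) := by
      rw [Real.exp_nat_mul, Real.exp_log (by linarith)]
    rw [e, ← Real.exp_add]
    apply Real.exp_le_exp.mpr
    have : (k : ℝ) * (c / (2 * k) * R) = c / 2 * R := by field_simp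
    nlinarith [mul_le_mul_of_nonneg_left h4 hk0.le]
  have h13 : b ^ k * n ≤ ((s ^ k : ℕ) : ℝ) := by
    have e1 : (n : ℝ) ≤ R ^ k := by
      rw [hR, ← Real.rpow_natCast, ← Real.rpow_mul (by linarith)]
      simpa using Real.rpow_le_rpow_of_exponent_le hn hak
    push_cast
    calc b ^ k * n ≤ b ^ k * R ^ k := by gcongr
      _ = (b * R) ^ k := (mul_pow _ _ _).symm
      _ ≤ _ := by gcongr
  have h14 : (2 : ℝ) ^ n * ((n : ℝ) ^ k * Real.exp (-(c * R))) ^ (s ^ k) ≤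
      Real.exp n * Real.exp (-(c / 2 * R)) ^ (s ^ k) := by
    gcongr
    exact two_pow_le_exp n
  rw [← Real.exp_nat_mul, ← Real.exp_add] at h14
  have h15 : 4 ≤ c / 2 * R * b ^ k := by
    rw [div_le_iff₀ (by positivity)] at h3; linarith
  have h16 : Real.exp (n + ((s ^ k : ℕ) : ℝ) * -(c / 2 * R)) ≤ Real.exp (-3) := by
    apply Real.exp_le_exp.mpr
    have := mul_le_mul_of_nonneg_left h13 (show 0 ≤ c / 2 * R by positivity)
    nlinarith
  have h17 : Real.exp (-3) ≤ 1 / 8 := by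
    rw [Real.exp_neg, ← one_div]
    refine one_div_le_one_div_of_le (by norm_num) ?_
    have := two_pow_le_exp 3
    norm_num at this ⊢
    exact this
  have h18 : (k : ℝ) * ((n : ℝ) ^ k * Real.exp (-(c * R))) ≤ k * Real.exp (-(c / 2 * R)) := by
    gcongr
  linarith

theorem main {a : ℝ} (ha : 0 < a) (ha1 : a < 1) :
    Tendsto (fun n : ℕ => sInf {p : ℝ | 0 ≤ p ∧ p ≤ 1 ∧
      (1 / 2 : ℝ) ≤ Pr p (Perc (n := n) ((n : ℝ) ^ a))} / (n : ℝ) ^ (a - 1)) atTop (𝓝 1) := by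
  rw [Metric.tendsto_nhds]
  intro δ hδ
  have hε : 0 < min (δ / 2) 1 := lt_min (by linarith) one_pos
  have hε1 : min (δ / 2) 1 ≤ 1 := min_le_right _ _
  have hε2 : min (δ / 2) 1 ≤ δ / 2 := min_le_left _ _
  set ε := min (δ / 2) 1
  filter_upwards [upper ha ha1 hε hε1, lower ha ha1 hε hε1, eventually_ge_atTop 1] with n h1 h2 h3
  have hn : (0 : ℝ) < n := by exact_mod_cast h3
  have hq : 0 < (n : ℝ) ^ (a - 1) := by positivity
  have hmem : (1 + ε) * (n : ℝ) ^ (a - 1) ∈ {p : ℝ | 0 ≤ p ∧ p ≤ 1 ∧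
      (1 / 2 : ℝ) ≤ Pr p (Perc (n := n) ((n : ℝ) ^ a))} := ⟨by positivity, h1.1, h1.2⟩
  have h4 := csInf_le ⟨0, fun p hp => hp.1⟩ hmem
  have h5 := le_csInf (a := (1 - ε) * (n : ℝ) ^ (a - 1)) ⟨_, hmem⟩ fun p hp => by
    by_contra hc
    exact absurd hp.2.2 (not_le.mpr (h2 p hp.1 (not_le.mp hc).le))
  rw [Real.dist_eq, abs_lt]
  have h6 := (div_le_iff₀ hq).mpr h4
  have h7 := (le_div_iff₀ hq).mpr h5
  constructor <;> linarith

end Pool.Agent.H606Z.BP
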