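import Mathlib

set_option autoImplicit false

namespace Pool.Agent.H606Z.DR

open Finset Filter Topology

/-- one step of the recursion for `m = 2` -/
noncomputable def step (q : ℕ → ℝ) (k : ℕ) : ℝ :=
  (∑ x ∈ antidiagonal (k + 1), q x.1 * q x.2) + (if k = 0 then q 0 ^ 2 else 0)

lemma step_eq (q : ℕ → ℝ) (k : ℕ) :
    (∑ x : Fin 2 → Fin (k + 2),
        if (∑ i, (x i : ℕ)) = k + 1 then ∏ i, q (x i) else 0)
      + (if k = 0 then q 0 ^ 2 else 0) = step q k := by
  unfold step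
  congr 1
  rw [← Finset.sum_filter]
  refine Finset.sum_bij (fun x _ => ((x 0 : ℕ), (x 1 : ℕ))) ?_ ?_ ?_ ?_
  · intro x hx
    simp only [Finset.mem_filter, Finset.mem_univ, true_and, Fin.sum_univ_two] at hx
    simpa using hx
  · intro x _ y _ h
    simp only [Prod.mk.injEq] at h
    funext i
    fin_cases i
    · exact Fin.ext h.1
    · exact Fin.ext h.2
  · rintro ⟨a, b⟩ hab
    simp only [HasAntidiagonal.mem_antidiagonal] at hab
    refine ⟨![⟨a, by omega⟩, ⟨b, by omega⟩], ?_, ?_⟩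
    · simp [Fin.sum_univ_two, hab]
    · simp
  · intro x _
    simp [Fin.prod_univ_two]

lemma step_nonneg {q : ℕ → ℝ} (hq : ∀ k, 0 ≤ q k) (k : ℕ) : 0 ≤ step q k := by
  unfold step
  apply add_nonneg
  · exact Finset.sum_nonneg fun x _ => mul_nonneg (hq _) (hq _)
  · split_ifs <;> positivity

lemma hasSum_conv {a b : ℕ → ℝ} (ha0 : ∀ k, 0 ≤ a k) (hb0 : ∀ k, 0 ≤ b k) {A B : ℝ}
    (ha : HasSum a A) (hb : HasSum b B) :
    HasSum (fun n => ∑ x ∈ antidiagonal n, a x.1 * b x.2) (A * B) := by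
  have ha' : Summable fun k => ‖a k‖ := by
    simpa [Real.norm_eq_abs, abs_of_nonneg (ha0 _)] using ha.summable
  have hb' : Summable fun k => ‖b k‖ := by
    simpa [Real.norm_eq_abs, abs_of_nonneg (hb0 _)] using hb.summable
  have h1 := tsum_mul_tsum_eq_tsum_sum_antidiagonal_of_summable_norm ha' hb'
  have h2 := (summable_norm_sum_mul_antidiagonal_of_summable_norm ha' hb').of_norm
  rw [ha.tsum_eq, hb.tsum_eq] at h1
  rw [h1]
  exact h2.hasSum

lemma hasSum_of_eq {f g : ℕ → ℝ} {a b : ℝ} (h : HasSum f a) (hf : ∀ k, g k = f k) (hb : b = a) :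
    HasSum g b := by
  rw [hb, show g = f from funext hf]; exact h

lemma step_hasSum {q : ℕ → ℝ} (hq : ∀ k, 0 ≤ q k) {s : ℝ} (hs : 0 < s) {A B : ℝ}
    (hA : HasSum (fun k => q k * s ^ k) A) (hB : HasSum (fun k : ℕ => (k : ℝ) * q k * s ^ k) B) :
    HasSum (fun k => step q k * s ^ k) ((A ^ 2 + (s - 1) * q 0 ^ 2) / s) ∧
    HasSum (fun k : ℕ => (k : ℝ) * step q k * s ^ k) ((2 * A * B - A ^ 2 + q 0 ^ 2) / s) := by
  set c : ℕ → ℝ := fun n => ∑ x ∈ antidiagonal n, q x.1 * q x.2 with hc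
  have ha0 : ∀ k, 0 ≤ q k * s ^ k := fun k => mul_nonneg (hq k) (pow_nonneg hs.le k)
  have hb0 : ∀ k : ℕ, 0 ≤ (k : ℝ) * q k * s ^ k := fun k =>
    mul_nonneg (mul_nonneg (Nat.cast_nonneg k) (hq k)) (pow_nonneg hs.le k)
  have h1 : HasSum (fun n => c n * s ^ n) (A * A) := by
    have := hasSum_conv ha0 ha0 hA hA
    convert this using 2 with n
    simp only [hc, Finset.sum_mul]
    refine Finset.sum_congr rfl fun x hx => ?_
    rw [HasAntidiagonal.mem_antidiagonal] at hx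
    rw [← hx]; ring
  have h2 : HasSum (fun n : ℕ => (n : ℝ) * c n * s ^ n) (A * B + B * A) := by
    have := (hasSum_conv ha0 hb0 hA hB).add (hasSum_conv hb0 ha0 hB hA)
    convert this using 2 with n
    simp only [hc, Finset.sum_mul, Finset.mul_sum, ← Finset.sum_add_distrib]
    refine Finset.sum_congr rfl fun x hx => ?_
    rw [HasAntidiagonal.mem_antidiagonal] at hx
    rw [← hx]; push_cast; ring
  have h1' := (hasSum_nat_add_iff' 1).mpr h1
  have h2' := (hasSum_nat_add_iff' 1).mpr h2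
  have hc0 : c 0 = q 0 ^ 2 := by simp [hc]; ring
  simp only [Finset.sum_range_one, pow_zero, mul_one, hc0, Nat.cast_zero, zero_mul,
    sub_zero] at h1' h2'
  have h3 : HasSum (fun k : ℕ => (if k = 0 then q 0 ^ 2 else 0) * s ^ k) (q 0 ^ 2) := by
    have := hasSum_single (f := fun k : ℕ => (if k = 0 then q 0 ^ 2 else 0) * s ^ k) 0
      (by intro b hb; simp [hb])
    simpa using this
  constructor
  · have := (h1'.div_const s).add h3
    refine hasSum_of_eq this (fun k => ?_) ?_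
    · simp only [step, hc]
      field_simp
      ring
    · field_simp; ring
  · have := (h2'.sub h1').div_const s
    refine hasSum_of_eq this (fun k => ?_) ?_
    · simp only [step, hc]
      rcases Nat.eq_zero_or_pos k with rfl | hk
      · simp
      · simp only [hk.ne', if_false]
        push_cast
        field_simp
        ring
    · field_simp; ring

/-- the iterated laws -/
noncomputable def law (q : ℕ → ℝ) : ℕ → ℕ → ℝ
  | 0 => q
  | n + 1 => step (law q n)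

lemma law_nonneg {q : ℕ → ℝ} (hq : ∀ k, 0 ≤ q k) (n k : ℕ) : 0 ≤ law q n k := by
  induction n generalizing k with
  | zero => exact hq k
  | succ n ih => exact step_nonneg ih k

/-- generating function -/
noncomputable def H (q : ℕ → ℝ) (n : ℕ) (s : ℝ) : ℝ := ∑' k, law q n k * s ^ k

/-- `s` times the derivative of the generating function -/
noncomputable def G (q : ℕ → ℝ) (n : ℕ) (s : ℝ) : ℝ := ∑' k : ℕ, (k : ℝ) * law q n k * s ^ k

/-- hypotheses on the initial law -/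
structure Crit (q : ℕ → ℝ) : Prop where
  nonneg : ∀ k, 0 ≤ q k
  mass : HasSum q 1
  sumA : Summable fun k => q k * (2 : ℝ) ^ k
  sumB : Summable fun k : ℕ => (k : ℝ) * q k * (2 : ℝ) ^ k
  crit : (∑' k : ℕ, (k : ℝ) * q k * (2 : ℝ) ^ k) = ∑' k, q k * (2 : ℝ) ^ k

variable {q : ℕ → ℝ}

lemma Crit.hasSum (hq : Crit q) {s : ℝ} (hs : 0 < s) (hs2 : s ≤ 2) (n : ℕ) :
    HasSum (fun k => law q n k * s ^ k) (H q n s) ∧
    HasSum (fun k : ℕ => (k : ℝ) * law q n k * s ^ k) (G q n s) := by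
  induction n with
  | zero =>
    constructor
    · refine Summable.hasSum (Summable.of_nonneg_of_le (fun k => ?_) (fun k => ?_) hq.sumA)
      · exact mul_nonneg (hq.nonneg k) (pow_nonneg hs.le k)
      · exact mul_le_mul_of_nonneg_left (pow_le_pow_left₀ hs.le hs2 k) (hq.nonneg k)
    · refine Summable.hasSum (Summable.of_nonneg_of_le (fun k => ?_) (fun k => ?_) hq.sumB)
      · exact mul_nonneg (mul_nonneg (Nat.cast_nonneg k) (hq.nonneg k)) (pow_nonneg hs.le k)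
      · exact mul_le_mul_of_nonneg_left (pow_le_pow_left₀ hs.le hs2 k)
          (mul_nonneg (Nat.cast_nonneg k) (hq.nonneg k))
  | succ n ih =>
    have := step_hasSum (law_nonneg hq.nonneg n) hs ih.1 ih.2
    exact ⟨this.1.summable.hasSum, this.2.summable.hasSum⟩

lemma Crit.H_succ (hq : Crit q) {s : ℝ} (hs : 0 < s) (hs2 : s ≤ 2) (n : ℕ) :
    H q (n + 1) s = (H q n s ^ 2 + (s - 1) * law q n 0 ^ 2) / s :=
  (step_hasSum (law_nonneg hq.nonneg n) hs (hq.hasSum hs hs2 n).1 (hq.hasSum hs hs2 n).2).1.tsum_eq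

lemma Crit.G_succ (hq : Crit q) {s : ℝ} (hs : 0 < s) (hs2 : s ≤ 2) (n : ℕ) :
    G q (n + 1) s = (2 * H q n s * G q n s - H q n s ^ 2 + law q n 0 ^ 2) / s :=
  (step_hasSum (law_nonneg hq.nonneg n) hs (hq.hasSum hs hs2 n).1 (hq.hasSum hs hs2 n).2).2.tsum_eq

lemma Crit.H_one (hq : Crit q) (n : ℕ) : H q n 1 = 1 := by
  induction n with
  | zero => simpa [H, law] using hq.mass.tsum_eq
  | succ n ih => rw [hq.H_succ one_pos (by norm_num), ih]; simp

lemma Crit.mass_n (hq : Crit q) (n : ℕ) : HasSum (law q n) 1 := by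
  have := (hq.hasSum one_pos (by norm_num) n).1
  rw [hq.H_one] at this
  simpa using this

lemma Crit.G_two (hq : Crit q) (n : ℕ) : G q n 2 = H q n 2 := by
  induction n with
  | zero => exact hq.crit
  | succ n ih => rw [hq.H_succ two_pos le_rfl, hq.G_succ two_pos le_rfl, ih]; ring

lemma Crit.H_two_le (hq : Crit q) (n : ℕ) : H q n 2 ≤ 2 := by
  have hA := (hq.hasSum two_pos le_rfl n).1
  have hB := (hq.hasSum two_pos le_rfl n).2
  have h1 := ((hq.mass_n n).mul_left 2).add (hB.sub hA)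
  rw [hq.G_two] at h1
  have := hasSum_le (fun k => ?_) hA h1
  · linarith
  · have h0 := law_nonneg hq.nonneg n k
    have : (2 : ℝ) ^ k ≤ 2 + ((k : ℝ) - 1) * 2 ^ k := by
      rcases k with _ | _ | k
      · norm_num
      · norm_num
      · have : (0 : ℝ) ≤ (k : ℝ) * 2 ^ (k + 1 + 1) := by positivity
        push_cast; nlinarith
    nlinarith [mul_le_mul_of_nonneg_left this h0]

lemma Crit.H_mono (hq : Crit q) {s t : ℝ} (hs : 0 < s) (hst : s ≤ t) (ht : t ≤ 2) (n : ℕ) :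
    H q n s ≤ H q n t :=
  hasSum_le (fun k => mul_le_mul_of_nonneg_left (pow_le_pow_left₀ hs.le hst k)
    (law_nonneg hq.nonneg n k)) (hq.hasSum hs (hst.trans ht) n).1
    (hq.hasSum (hs.trans_le hst) ht n).1

lemma Crit.G_le (hq : Crit q) {s : ℝ} (hs : 0 < s) (hs2 : s ≤ 2) (n : ℕ) : G q n s ≤ 2 := by
  have : G q n s ≤ G q n 2 :=
    hasSum_le (fun k => mul_le_mul_of_nonneg_left (pow_le_pow_left₀ hs.le hs2 k)
      (mul_nonneg (Nat.cast_nonneg k) (law_nonneg hq.nonneg n k))) (hq.hasSum hs hs2 n).2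
      (hq.hasSum two_pos le_rfl n).2
  rw [hq.G_two] at this
  exact this.trans (hq.H_two_le n)

lemma Crit.G_nonneg (hq : Crit q) {s : ℝ} (hs : 0 < s) (n : ℕ) : 0 ≤ G q n s :=
  tsum_nonneg fun k => mul_nonneg (mul_nonneg (Nat.cast_nonneg k) (law_nonneg hq.nonneg n k))
    (pow_nonneg hs.le k)

lemma Crit.one_le_H (hq : Crit q) {s : ℝ} (hs : 1 ≤ s) (hs2 : s ≤ 2) (n : ℕ) : 1 ≤ H q n s := by
  have := hq.H_mono one_pos hs hs2 n
  rwa [hq.H_one] at this

lemma pow_sub_le {s : ℝ} (hs : 0 ≤ s) (hs2 : s ≤ 2) (k : ℕ) :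
    (2 : ℝ) ^ k ≤ s ^ k + (2 - s) * ((k : ℝ) * 2 ^ k) := by
  induction k with
  | zero => simp
  | succ k ih =>
    have h1 : s ^ k ≤ 2 ^ k := pow_le_pow_left₀ hs hs2 k
    have h2 : (0 : ℝ) ≤ 2 ^ k := by positivity
    have h3 : 0 ≤ 2 - s := by linarith
    push_cast
    rw [pow_succ, pow_succ]
    nlinarith [mul_le_mul_of_nonneg_left h1 h3, mul_nonneg h3 h2]

lemma Crit.H_two_le' (hq : Crit q) {s : ℝ} (hs : 1 ≤ s) (hs2 : s ≤ 2) (n : ℕ) :
    H q n 2 ≤ H q n s * (1 + 2 * (2 - s)) := by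
  have hs0 : 0 < s := by linarith
  have h1 := (hq.hasSum hs0 hs2 n).1.add ((hq.hasSum two_pos le_rfl n).2.mul_left (2 - s))
  have h2 := hasSum_le (fun k => ?_) (hq.hasSum two_pos le_rfl n).1 h1
  · have h3 := hq.G_le two_pos le_rfl n
    have h4 := hq.one_le_H hs hs2 n
    have h5 : 0 ≤ 2 - s := by linarith
    nlinarith [mul_le_mul_of_nonneg_left h3 h5, mul_le_mul_of_nonneg_left h4 h5]
  · have := mul_le_mul_of_nonneg_left (pow_sub_le hs0.le hs2 k) (law_nonneg hq.nonneg n k)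
    nlinarith

/-- the quantity `H - (s - 1) G` -/
noncomputable def del (q : ℕ → ℝ) (n : ℕ) (s : ℝ) : ℝ := H q n s - (s - 1) * G q n s

lemma Crit.del_succ (hq : Crit q) {s : ℝ} (hs : 1 ≤ s) (hs2 : s ≤ 2) (n : ℕ) :
    H q n s * (del q n s - 2 * (2 - s)) ≤ del q (n + 1) s := by
  have hs0 : 0 < s := by linarith
  have e : del q (n + 1) s = H q n s * (del q n s - (s - 1) / s * (2 - s) * G q n s) := by
    unfold del
    rw [hq.H_succ hs0 hs2, hq.G_succ hs0 hs2]
    field_simp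
    ring
  rw [e]
  apply mul_le_mul_of_nonneg_left _ (by linarith [hq.one_le_H hs hs2 n])
  have h1 : (s - 1) / s ≤ 1 := by rw [div_le_one hs0]; linarith
  have h2 : 0 ≤ (s - 1) / s := div_nonneg (by linarith) hs0.le
  have h3 := hq.G_le hs0 hs2 n
  have h4 := hq.G_nonneg hs0 n
  have h5 : 0 ≤ 2 - s := by linarith
  have h6 : (s - 1) / s * G q n s ≤ 1 * 2 := mul_le_mul h1 h3 h4 zero_le_one
  nlinarith [mul_le_mul_of_nonneg_left h6 h5]

lemma Crit.one_le_prod (hq : Crit q) {s : ℝ} (hs : 1 ≤ s) (hs2 : s ≤ 2) (n : ℕ) :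
    1 ≤ ∏ i ∈ range n, H q i s :=
  by
  induction n with
  | zero => simp
  | succ n ih =>
    rw [Finset.prod_range_succ]
    exact one_le_mul_of_one_le_of_one_le ih (hq.one_le_H hs hs2 n)

lemma Crit.del_lower (hq : Crit q) {s : ℝ} (hs : 1 ≤ s) (hs2 : s ≤ 2) (n : ℕ) :
    (∏ i ∈ range n, H q i s) * (del q 0 s - 2 * (2 - s) * n) ≤ del q n s := by
  induction n with
  | zero => simp
  | succ n ih =>
    refine le_trans ?_ (hq.del_succ hs hs2 n)
    rw [Finset.prod_range_succ, mul_comm (∏ i ∈ range n, H q i s), mul_assoc]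
    apply mul_le_mul_of_nonneg_left _ (by linarith [hq.one_le_H hs hs2 n])
    have h1 := hq.one_le_prod hs hs2 n
    have h5 : 0 ≤ 2 - s := by linarith
    push_cast
    nlinarith [mul_le_mul_of_nonneg_left h1 h5]

lemma Crit.del_le (hq : Crit q) {s : ℝ} (hs : 1 ≤ s) (hs2 : s ≤ 2) (n : ℕ) : del q n s ≤ 2 := by
  have hs0 : 0 < s := by linarith
  have h1 := hq.H_mono hs0 hs2 le_rfl n
  have h2 := hq.H_two_le n
  have h3 := hq.G_nonneg hs0 n
  unfold del
  nlinarith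

lemma Crit.prod_two_le (hq : Crit q) {s : ℝ} (hs : 1 ≤ s) (hs2 : s ≤ 2) (n : ℕ) :
    (∏ i ∈ range n, H q i 2) ≤ (∏ i ∈ range n, H q i s) * (1 + 2 * (2 - s)) ^ n := by
  have : (∏ i ∈ range n, H q i s) * (1 + 2 * (2 - s)) ^ n
      = ∏ i ∈ range n, (H q i s * (1 + 2 * (2 - s))) := by
    rw [Finset.prod_mul_distrib]; simp
  rw [this]
  exact Finset.prod_le_prod (fun i _ => by linarith [hq.one_le_H one_le_two le_rfl i])
    fun i _ => hq.H_two_le' hs hs2 i

lemma Crit.del_zero_lower (hq : Crit q) {s : ℝ} (hs : 1 ≤ s) (hs2 : s ≤ 2) (F : Finset ℕ) :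
    ∑ k ∈ F, q k * (((k : ℝ) - 1) * (2 ^ k - s ^ k)) ≤ del q 0 s := by
  have hs0 : 0 < s := by linarith
  have h1 := (((hq.hasSum hs0 hs2 0).1.sub ((hq.hasSum hs0 hs2 0).2.mul_left (s - 1))).add
    ((hq.hasSum two_pos le_rfl 0).2.sub (hq.hasSum two_pos le_rfl 0).1))
  rw [hq.G_two, sub_self, add_zero] at h1
  have key : ∀ k : ℕ, 0 ≤ q k * (((k : ℝ) - 1) * (2 ^ k - s ^ k)) := by
    intro k
    apply mul_nonneg (hq.nonneg k)
    rcases k with _ | k
    · simp
    · apply mul_nonneg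
      · push_cast; linarith [(Nat.cast_nonneg k : (0 : ℝ) ≤ k)]
      · linarith [pow_le_pow_left₀ hs0.le hs2 (k + 1)]
  have key2 : ∀ k : ℕ, q k * (((k : ℝ) - 1) * (2 ^ k - s ^ k)) ≤
      law q 0 k * s ^ k - (s - 1) * ((k : ℝ) * law q 0 k * s ^ k) +
        ((k : ℝ) * law q 0 k * 2 ^ k - law q 0 k * 2 ^ k) := by
    intro k
    have h2 : 0 ≤ (2 - s) * ((k : ℝ) * q k * s ^ k) :=
      mul_nonneg (by linarith) (mul_nonneg (mul_nonneg (Nat.cast_nonneg k) (hq.nonneg k))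
        (pow_nonneg hs0.le k))
    simp only [law]
    nlinarith
  calc _ ≤ ∑ k ∈ F, (law q 0 k * s ^ k - (s - 1) * ((k : ℝ) * law q 0 k * s ^ k) +
        ((k : ℝ) * law q 0 k * 2 ^ k - law q 0 k * 2 ^ k)) := Finset.sum_le_sum fun k _ => key2 k
    _ ≤ _ := sum_le_hasSum F (fun k _ => (key k).trans (key2 k)) h1

end Pool.Agent.H606Z.DR
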