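import Pool.Agent.H606Z.DR1

set_option autoImplicit false

namespace Pool.Agent.H606Z.DR

open Finset Filter Topology

variable {q : ℕ → ℝ}

lemma Crit.zero_le_H (hq : Crit q) {s : ℝ} (hs : 0 < s) (hs2 : s ≤ 2) (n : ℕ) :
    law q n 0 ≤ H q n s := by
  have := le_hasSum (hq.hasSum hs hs2 n).1 0 fun j _ =>
    mul_nonneg (law_nonneg hq.nonneg n j) (pow_nonneg hs.le j)
  simpa using this

lemma Crit.h_step (hq : Crit q) {n : ℕ} (hn : 4 ≤ n)
    (h : H q n (1 / 10) ≤ 1 - 7 / 2 / (n : ℝ) ^ 2) :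
    H q (n + 1) 2 - 1 ≤ (H q n 2 - 1) + (H q n 2 - 1) ^ 2 / 2 - 3 / (n : ℝ) ^ 2 := by
  rw [hq.H_succ two_pos le_rfl]
  have h0 := law_nonneg hq.nonneg n 0
  have h1 := (hq.zero_le_H (s := 1 / 10) (by norm_num) (by norm_num) n).trans h
  have hn' : (4 : ℝ) ≤ n := by exact_mod_cast hn
  set y : ℝ := 1 / (n : ℝ) ^ 2 with hy
  have hy0 : 0 < y := by positivity
  have hy1 : y ≤ 1 / 16 := by
    rw [hy]; apply one_div_le_one_div_of_le (by norm_num); nlinarith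
  have e1 : 7 / 2 / (n : ℝ) ^ 2 = 7 / 2 * y := by rw [hy]; ring
  have e2 : 3 / (n : ℝ) ^ 2 = 3 * y := by rw [hy]; ring
  rw [e1] at h1
  rw [e2]
  have h2 : law q n 0 ^ 2 ≤ (1 - 7 / 2 * y) ^ 2 := pow_le_pow_left₀ h0 h1 2
  nlinarith

lemma Crit.h_lower (hq : Crit q) {N : ℕ} (hN : 4 ≤ N)
    (h : ∀ n, N ≤ n → H q n (1 / 10) ≤ 1 - 7 / 2 / (n : ℝ) ^ 2) {n : ℕ} (hn : N ≤ n) :
    1 + 3 / (2 * (n : ℝ)) ≤ H q n 2 := by
  by_contra hcon
  push Not at hcon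
  have hn0 : (0 : ℝ) < n := by exact_mod_cast (by omega : 0 < n)
  have key : ∀ k, n ≤ k → H q k 2 - 1 ≤ 15 / (8 * (k : ℝ)) - 3 / (8 * (n : ℝ)) := by
    intro k hk
    induction k, hk using Nat.le_induction with
    | base =>
      have : 15 / (8 * (n : ℝ)) - 3 / (8 * (n : ℝ)) = 3 / (2 * (n : ℝ)) := by field_simp; ring
      linarith
    | succ k hk ih =>
      have hk0 : (0 : ℝ) < k := by exact_mod_cast (by omega : 0 < k)
      have hnk : (n : ℝ) ≤ k := by exact_mod_cast hk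
      have h1 := hq.h_step (by omega : 4 ≤ k) (h k (by omega))
      have h2 : 0 ≤ H q k 2 - 1 := by linarith [hq.one_le_H one_le_two le_rfl k]
      have h3 : 3 / (8 * (k : ℝ)) ≤ 3 / (8 * (n : ℝ)) := by gcongr
      have h4 : H q k 2 - 1 ≤ 3 / (2 * (k : ℝ)) := by
        have : 15 / (8 * (k : ℝ)) - 3 / (8 * (k : ℝ)) = 3 / (2 * (k : ℝ)) := by field_simp; ring
        linarith
      have h5 : (H q k 2 - 1) ^ 2 ≤ (3 / (2 * (k : ℝ))) ^ 2 := pow_le_pow_left₀ h2 h4 2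
      have h6 : 15 / (8 * (k : ℝ)) + (3 / (2 * (k : ℝ))) ^ 2 / 2 - 3 / (k : ℝ) ^ 2
          ≤ 15 / (8 * ((k : ℝ) + 1)) := by
        have : 15 / (8 * ((k : ℝ) + 1)) - (15 / (8 * (k : ℝ)) + (3 / (2 * (k : ℝ))) ^ 2 / 2
          - 3 / (k : ℝ) ^ 2) = 15 / (8 * (k : ℝ) ^ 2 * (k + 1)) := by field_simp; ring
        have h7 : 0 ≤ 15 / (8 * (k : ℝ) ^ 2 * (k + 1)) := by positivity
        linarith
      push_cast
      linarith
  have h1 := key (6 * n) (by omega)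
  have h2 : 0 ≤ H q (6 * n) 2 - 1 := by linarith [hq.one_le_H one_le_two le_rfl (6 * n)]
  have h3 : 15 / (8 * ((6 * n : ℕ) : ℝ)) - 3 / (8 * (n : ℝ)) = -(1 / (16 * (n : ℝ))) := by
    push_cast; field_simp; ring
  have h4 : 0 < 1 / (16 * (n : ℝ)) := by positivity
  linarith

lemma Crit.prod_lower (hq : Crit q) {N : ℕ} (hN : 4 ≤ N)
    (h : ∀ n, N ≤ n → H q n (1 / 10) ≤ 1 - 7 / 2 / (n : ℝ) ^ 2) {n : ℕ} (hn : N ≤ n) :
    (n : ℝ) ^ 2 * (n + 1) ≤ (N : ℝ) ^ 2 * (N + 1) * (∏ i ∈ range n, H q i 2) ^ 2 := by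
  induction n, hn using Nat.le_induction with
  | base =>
    have h1 := hq.one_le_prod one_le_two le_rfl N
    have h2 : 1 ≤ (∏ i ∈ range N, H q i 2) ^ 2 := one_le_pow₀ h1
    have h3 : (0 : ℝ) ≤ (N : ℝ) ^ 2 * (N + 1) := by positivity
    nlinarith
  | succ k hk ih =>
    have hk0 : (0 : ℝ) < k := by exact_mod_cast (by omega : 0 < k)
    have h1 := hq.h_lower hN h hk
    have h2 : (1 + 3 / (2 * (k : ℝ))) ^ 2 ≤ H q k 2 ^ 2 := pow_le_pow_left₀ (by positivity) h1 2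
    rw [Finset.prod_range_succ, mul_pow, ← mul_assoc]
    have h3 : ((k : ℝ) + 1) ^ 2 * (k + 1 + 1) ≤ (k : ℝ) ^ 2 * (k + 1) * (1 + 3 / (2 * (k : ℝ))) ^ 2 := by
      have : (k : ℝ) ^ 2 * (k + 1) * (1 + 3 / (2 * (k : ℝ))) ^ 2 = (k + 1) * (k + 3 / 2) ^ 2 := by
        field_simp
      rw [this]; nlinarith
    push_cast
    calc _ ≤ _ := h3
      _ ≤ _ := mul_le_mul ih h2 (by positivity) (by positivity)

/-! the initial law -/

/-- `1 / sqrt (k + 1)` -/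
noncomputable def t (k : ℕ) : ℝ := 1 / Real.sqrt ((k : ℝ) + 1)

lemma t_anti (k : ℕ) : t (k + 1) ≤ t k := by
  unfold t
  apply one_div_le_one_div_of_le (Real.sqrt_pos.mpr (by positivity))
  apply Real.sqrt_le_sqrt
  push_cast; linarith

lemma t_zero : t 0 = 1 := by simp [t]

lemma t_tendsto : Tendsto t atTop (𝓝 0) := by
  have h1 : Tendsto (fun k : ℕ => Real.sqrt ((k : ℝ) + 1)) atTop atTop :=
    Real.tendsto_sqrt_atTop.comp (tendsto_natCast_atTop_atTop.atTop_add tendsto_const_nhds)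
  refine h1.inv_tendsto_atTop.congr fun k => ?_
  simp [t]

lemma hasSum_d : HasSum (fun k => t k - t (k + 1)) 1 := by
  rw [hasSum_iff_tendsto_nat_of_nonneg fun k => sub_nonneg.mpr (t_anti k)]
  simp only [Finset.sum_range_sub', t_zero]
  simpa using t_tendsto.const_sub 1

/-- unnormalised weights -/
noncomputable def r : ℕ → ℝ
  | 0 => 1
  | 1 => 0
  | k + 2 => (t k - t (k + 1)) / (((k : ℝ) + 1) * 2 ^ (k + 2))

lemma r_nonneg (k : ℕ) : 0 ≤ r k := by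
  rcases k with _ | _ | k
  · simp [r]
  · simp [r]
  · exact div_nonneg (sub_nonneg.mpr (t_anti k)) (by positivity)

lemma r_mul (k : ℕ) : r (k + 2) * (((k : ℝ) + 1) * 2 ^ (k + 2)) = t k - t (k + 1) := by
  simp only [r]; field_simp

lemma hasSum_r_crit : HasSum (fun k : ℕ => r k * (((k : ℝ) - 1) * 2 ^ k)) 0 := by
  rw [← hasSum_nat_add_iff' 2]
  refine hasSum_of_eq hasSum_d (fun k => ?_) ?_
  · rw [← r_mul]; push_cast; ring
  · simp [Finset.sum_range_succ, r]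

lemma r_two_le (k : ℕ) : r (k + 2) * 2 ^ (k + 2) ≤ t k - t (k + 1) := by
  rw [← r_mul]
  apply mul_le_mul_of_nonneg_left _ (r_nonneg _)
  have : (0 : ℝ) ≤ (k : ℝ) * 2 ^ (k + 2) := by positivity
  nlinarith

lemma summable_rA : Summable fun k => r k * (2 : ℝ) ^ k := by
  rw [← summable_nat_add_iff 2]
  exact Summable.of_nonneg_of_le (fun k => mul_nonneg (r_nonneg _) (by positivity)) r_two_le
    hasSum_d.summable

lemma r_le (k : ℕ) : r (k + 2) ≤ t k - t (k + 1) := by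
  refine le_trans ?_ (r_two_le k)
  exact le_mul_of_one_le_right (r_nonneg _) (one_le_pow₀ one_le_two)

lemma summable_r : Summable r := by
  rw [← summable_nat_add_iff 2]
  exact Summable.of_nonneg_of_le (fun k => r_nonneg _) r_le hasSum_d.summable

/-- the normalising constant -/
noncomputable def Z : ℝ := ∑' k, r k

lemma one_le_Z : 1 ≤ Z := by
  exact le_hasSum summable_r.hasSum 0 fun j _ => r_nonneg j

lemma Z_le : Z ≤ 2 := by
  have h1 := (hasSum_nat_add_iff' 2).mpr summable_r.hasSum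
  have h2 := hasSum_le r_le h1 hasSum_d
  have h3 : ∑ i ∈ range 2, r i = 1 := by simp [Finset.sum_range_succ, r]
  rw [h3] at h2
  unfold Z; linarith

/-- the initial law -/
noncomputable def q0 (k : ℕ) : ℝ := r k / Z

lemma crit_q0 : Crit q0 := by
  have hZ : 0 < Z := by linarith [one_le_Z]
  have hA : HasSum (fun k => q0 k * (2 : ℝ) ^ k) ((∑' k, r k * (2 : ℝ) ^ k) / Z) :=
    hasSum_of_eq (summable_rA.hasSum.div_const Z) (fun k => by unfold q0; ring) rfl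
  have hB : HasSum (fun k : ℕ => (k : ℝ) * q0 k * (2 : ℝ) ^ k) ((∑' k, r k * (2 : ℝ) ^ k) / Z) :=
    hasSum_of_eq ((summable_rA.hasSum.add hasSum_r_crit).div_const Z)
      (fun k => by unfold q0; ring) (by simp)
  refine ⟨fun k => div_nonneg (r_nonneg k) hZ.le, ?_, hA.summable, hB.summable, ?_⟩
  · exact hasSum_of_eq (summable_r.hasSum.div_const Z) (fun k => rfl) (div_self hZ.ne').symm
  · rw [hA.tsum_eq, hB.tsum_eq]

lemma q0_zero_pos : 0 < q0 0 := by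
  have hZ : 0 < Z := by linarith [one_le_Z]
  simp only [q0, r]; positivity

lemma t_sq (j : ℕ) (hj : 1 ≤ j) : t (j ^ 2 - 1) = 1 / j := by
  unfold t
  have h1 : 1 ≤ j ^ 2 := Nat.one_le_pow _ _ hj
  have : (((j ^ 2 - 1 : ℕ) : ℝ) + 1) = (j : ℝ) ^ 2 := by
    rw [Nat.cast_sub h1]; push_cast; ring
  rw [this, Real.sqrt_sq (Nat.cast_nonneg j)]

lemma del_q0 (j : ℕ) (hj : 2 ≤ j) : 1 / (8 * (j : ℝ)) ≤ del q0 0 (2 - 2 / (j : ℝ) ^ 2) := by
  have hj' : (2 : ℝ) ≤ j := by exact_mod_cast hj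
  have hZ : 0 < Z := by linarith [one_le_Z]
  set y : ℝ := 1 / (j : ℝ) ^ 2 with hy
  have hy0 : 0 < y := by positivity
  have hy1 : y ≤ 1 / 4 := by
    rw [hy]; apply one_div_le_one_div_of_le (by norm_num); nlinarith
  have e : 2 - 2 / (j : ℝ) ^ 2 = 2 * (1 - y) := by rw [hy]; ring
  rw [e]
  have hx : (1 - y) ^ (j ^ 2) ≤ 1 / 2 := by
    have h1 : 1 + ((j ^ 2 : ℕ) : ℝ) * y ≤ (1 + y) ^ (j ^ 2) := one_add_mul_le_pow (by linarith) _
    have h2 : ((j ^ 2 : ℕ) : ℝ) * y = 1 := by rw [hy]; push_cast; field_simp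
    have h3 : (1 - y) ^ (j ^ 2) * (1 + y) ^ (j ^ 2) ≤ 1 := by
      rw [← mul_pow]; apply pow_le_one₀ <;> nlinarith
    have h4 : 0 ≤ (1 - y) ^ (j ^ 2) := pow_nonneg (by linarith) _
    nlinarith
  set K := j ^ 2 - 1 with hK
  set L := (2 * j) ^ 2 - 1 - K with hL
  have h1 : 1 ≤ j ^ 2 := Nat.one_le_pow _ _ (by omega)
  have hKL : K + L = (2 * j) ^ 2 - 1 := by
    have : (2 * j) ^ 2 = 4 * j ^ 2 := by ring
    omega
  refine le_trans ?_ (crit_q0.del_zero_lower (by linarith) (by linarith)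
    ((range L).map ⟨fun i => K + i + 2, fun a b hab => by simpa using hab⟩))
  rw [Finset.sum_map]
  have h2 : ∀ i ∈ range L, (t (K + i) - t (K + (i + 1))) / 4 ≤
      q0 (K + i + 2) * ((((K + i + 2 : ℕ) : ℝ) - 1) * (2 ^ (K + i + 2) - (2 * (1 - y)) ^ (K + i + 2))) := by
    intro i _
    have h3 : (1 - y) ^ (K + i + 2) ≤ 1 / 2 :=
      (pow_le_pow_of_le_one (by linarith) (by linarith) (by omega)).trans hx
    have h4 := r_mul (K + i)
    have h5 : 0 ≤ t (K + i) - t (K + i + 1) := sub_nonneg.mpr (t_anti _)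
    have e2 : q0 (K + i + 2) * ((((K + i + 2 : ℕ) : ℝ) - 1) *
        (2 ^ (K + i + 2) - (2 * (1 - y)) ^ (K + i + 2)))
        = (t (K + i) - t (K + i + 1)) * ((1 - (1 - y) ^ (K + i + 2)) / Z) := by
      rw [← h4, mul_pow]; unfold q0; push_cast; ring
    rw [e2, ← add_assoc, div_eq_mul_one_div]
    apply mul_le_mul_of_nonneg_left _ h5
    rw [div_le_div_iff₀ (by norm_num) hZ]
    linarith [Z_le]
  refine le_trans ?_ (Finset.sum_le_sum h2)
  rw [← Finset.sum_div, Finset.sum_range_sub' (fun i => t (K + i)), add_zero, hKL, hK,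
    t_sq j (by omega), t_sq (2 * j) (by omega)]
  push_cast
  apply le_of_eq
  field_simp
  ring

lemma prod_upper (n : ℕ) (hn : 1 ≤ n) : (∏ i ∈ range n, H q0 i 2) ≤ 6144 * n := by
  have hn' : (1 : ℝ) ≤ n := by exact_mod_cast hn
  have h1 := del_q0 (64 * n) (by omega)
  push_cast at h1
  set s : ℝ := 2 - 2 / (64 * (n : ℝ)) ^ 2 with hs
  have hη : 2 / (64 * (n : ℝ)) ^ 2 ≤ 1 := by
    rw [div_le_one (by positivity)]; nlinarith
  have hη0 : 0 < 2 / (64 * (n : ℝ)) ^ 2 := by positivity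
  have hs1 : 1 ≤ s := by linarith
  have hs2 : s ≤ 2 := by linarith
  have h2 := (crit_q0.del_lower hs1 hs2 n).trans (crit_q0.del_le hs1 hs2 n)
  have e : 2 * (2 - s) * n = 1 / (1024 * (n : ℝ)) := by rw [hs]; field_simp; ring
  have h3 : 1 / (1024 * (n : ℝ)) ≤ del q0 0 s - 2 * (2 - s) * n := by
    have : 1 / (8 * (64 * (n : ℝ))) = 2 * (1 / (1024 * (n : ℝ))) := by field_simp; ring
    linarith
  have h4 := crit_q0.one_le_prod hs1 hs2 n
  have h5 : (∏ i ∈ range n, H q0 i s) * (1 / (1024 * (n : ℝ))) ≤ 2 :=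
    (mul_le_mul_of_nonneg_left h3 (by linarith)).trans h2
  have h6 : (∏ i ∈ range n, H q0 i s) ≤ 2048 * n := by
    rw [mul_one_div, div_le_iff₀ (by positivity)] at h5; linarith
  have h7 : (1 + 2 * (2 - s)) ^ n ≤ 3 := by
    have h8 : 1 + 2 * (2 - s) ≤ Real.exp (2 * (2 - s)) := by
      linarith [Real.add_one_le_exp (2 * (2 - s))]
    have h9 : (1 + 2 * (2 - s)) ^ n ≤ Real.exp (2 * (2 - s)) ^ n :=
      pow_le_pow_left₀ (by linarith) h8 n
    rw [← Real.exp_nat_mul, mul_comm (n : ℝ), e] at h9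
    have h10 : 1 / (1024 * (n : ℝ)) ≤ 1 := by
      rw [div_le_one (by positivity)]; linarith
    have h11 := Real.exp_le_exp.mpr h10
    linarith [Real.exp_one_lt_d9]
  calc _ ≤ _ := crit_q0.prod_two_le hs1 hs2 n
    _ ≤ (2048 * n) * 3 := mul_le_mul h6 h7 (by apply pow_nonneg; linarith) (by positivity)
    _ = _ := by ring

theorem not_tendsto : ¬ Tendsto (fun n : ℕ => (H q0 n (1 / 10) - 1) /
    (4 * (2 : ℝ) / (((2 : ℝ) - 1) ^ 2) * ((1 / 10 - 1) / ((2 : ℝ) - 1 / 10)) / ((n : ℝ) ^ 2)))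
    atTop (𝓝 1) := by
  intro h
  have h1 := h.eventually (lt_mem_nhds (show (19 / 20 : ℝ) < 1 by norm_num))
  obtain ⟨N0, hN0⟩ := eventually_atTop.mp h1
  set N := max N0 4 with hN
  have h2 : ∀ n, N ≤ n → H q0 n (1 / 10) ≤ 1 - 7 / 2 / (n : ℝ) ^ 2 := by
    intro n hn
    have h3 := hN0 n (le_trans (le_max_left _ _) hn)
    have hn0 : (0 : ℝ) < n := by
      have : 4 ≤ n := le_trans (le_max_right _ _) hn
      exact_mod_cast (by omega : 0 < n)
    set y : ℝ := 1 / (n : ℝ) ^ 2 with hy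
    have hy0 : 0 < y := by positivity
    have e1 : 7 / 2 / (n : ℝ) ^ 2 = 7 / 2 * y := by rw [hy]; ring
    have e2 : 4 * (2 : ℝ) / (((2 : ℝ) - 1) ^ 2) * ((1 / 10 - 1) / ((2 : ℝ) - 1 / 10)) / ((n : ℝ) ^ 2)
        = -(72 / 19 * y) := by rw [hy]; ring
    rw [e2, lt_div_iff_of_neg (by linarith)] at h3
    rw [e1]; linarith
  obtain ⟨n, hn⟩ := exists_nat_gt ((N : ℝ) ^ 2 * (N + 1) * 6144 ^ 2 + N)
  have hC : (0 : ℝ) ≤ (N : ℝ) ^ 2 * (N + 1) * 6144 ^ 2 := by positivity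
  have hNn : N ≤ n := by
    have : (N : ℝ) ≤ n := by linarith
    exact_mod_cast this
  have hN4 : 4 ≤ N := le_max_right _ _
  have h3 := crit_q0.prod_lower hN4 h2 hNn
  have h4 := prod_upper n (by omega)
  have h5 : (∏ i ∈ range n, H q0 i 2) ^ 2 ≤ (6144 * n) ^ 2 :=
    pow_le_pow_left₀ (by linarith [crit_q0.one_le_prod one_le_two le_rfl n]) h4 2
  have h6 : (n : ℝ) ^ 2 * (n + 1) ≤ (N : ℝ) ^ 2 * (N + 1) * (6144 * n) ^ 2 :=
    h3.trans (mul_le_mul_of_nonneg_left h5 (by positivity))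
  have hn0 : (0 : ℝ) < n := by exact_mod_cast (by omega : 0 < n)
  have h7 : (0 : ℝ) < (n : ℝ) ^ 2 := by positivity
  have h8 : (0 : ℝ) ≤ N := Nat.cast_nonneg N
  nlinarith

end Pool.Agent.H606Z.DR
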