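import Mathlib

set_option autoImplicit false

namespace Pool.Agent.H606Z.LO

open MeasureTheory Finset

/-- the atoms -/
def v : Fin 13 → ℤ := ![0, 1, 2, 4, 8, -8, -16, -32, 64, -64, 128, 256, 512]

/-- the integer weights, of total `234` -/
def c : Fin 13 → ℕ := ![200, 1, 3, 4, 2, 2, 5, 5, 2, 2, 4, 3, 1]

noncomputable def ν : Measure (Fin 13) := ∑ i, ((c i : ENNReal) / 234) • Measure.dirac i

lemma ν_singleton (i : Fin 13) : ν {i} = (c i : ENNReal) / 234 := by
  unfold ν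
  simp only [Measure.coe_finsetSum, Finset.sum_apply, Measure.smul_apply, smul_eq_mul]
  rw [Finset.sum_eq_single i]
  · simp
  · intro b _ hb
    simp [hb]
  · simp

instance : IsProbabilityMeasure ν := ⟨by
  unfold ν
  simp only [Measure.coe_finsetSum, Finset.sum_apply, Measure.smul_apply, smul_eq_mul,
    measure_univ, mul_one]
  simp only [div_eq_mul_inv, ← Finset.sum_mul]
  have : (∑ i, (c i : ENNReal)) = 234 := by
    have h : ∑ i, c i = 234 := by decide
    exact_mod_cast h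
  rw [this]
  exact ENNReal.mul_inv_cancel (by norm_num) (by norm_num)⟩

def V (i : Fin 13) : Fin 1 → ℤ := fun _ => v i

noncomputable def μ : Measure (Fin 1 → ℤ) := ν.map V

instance : IsProbabilityMeasure μ :=
  Measure.isProbabilityMeasure_map (measurable_of_finite V).aemeasurable

/-- weighted count of triples -/
def cnt (P : ℤ → ℤ → ℤ → Bool) : ℕ :=
  ∑ a : Fin 13, ∑ b : Fin 13, ∑ d : Fin 13, if P (v a) (v b) (v d) then c a * c b * c d else 0

def e3 : (Fin 3 → Fin 13) ≃ Fin 13 × Fin 13 × Fin 13 where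
  toFun x := (x 0, x 1, x 2)
  invFun p := ![p.1, p.2.1, p.2.2]
  left_inv x := by funext i; fin_cases i <;> rfl
  right_inv _ := rfl

lemma pi_apply (S : Set (Fin 3 → Fin 1 → ℤ)) (P : ℤ → ℤ → ℤ → Bool)
    (h : ∀ ω, ω ∈ S ↔ P (ω 0 0) (ω 1 0) (ω 2 0) = true) :
    Measure.pi (fun _ : Fin 3 => μ) S = (cnt P : ENNReal) * (234⁻¹) ^ 3 := by
  classical
  have h1 : Measure.pi (fun _ : Fin 3 => μ) =
      (Measure.pi fun _ : Fin 3 => ν).map (fun x i => V (x i)) :=
    (Measure.pi_map_pi (μ := fun _ : Fin 3 => ν) (f := fun _ => V)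
      (hμ := fun _ => inferInstanceAs (SigmaFinite μ))
      fun _ => (measurable_of_finite V).aemeasurable).symm
  rw [h1, Measure.map_apply (measurable_of_finite _) (Set.to_countable S).measurableSet]
  have h2 : ((fun (x : Fin 3 → Fin 13) i => V (x i)) ⁻¹' S) =
      ↑(univ.filter fun x : Fin 3 → Fin 13 => P (v (x 0)) (v (x 1)) (v (x 2)) = true) := by
    ext x
    simp [h, V]
  rw [h2, ← sum_measure_singleton, Finset.sum_filter]
  simp only [Measure.pi_singleton, ν_singleton, Fin.prod_univ_three]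
  unfold cnt
  push_cast
  simp only [Finset.sum_mul]
  rw [← Equiv.sum_comp e3.symm, Fintype.sum_prod_type]
  refine Finset.sum_congr rfl fun a _ => ?_
  rw [Fintype.sum_prod_type]
  refine Finset.sum_congr rfl fun b _ => Finset.sum_congr rfl fun d _ => ?_
  simp only [e3, Equiv.coe_fn_symm_mk, Matrix.cons_val_zero, Matrix.cons_val_one,
    Matrix.cons_val_two, Matrix.head_cons, Matrix.tail_cons]
  split_ifs
  · simp only [div_eq_mul_inv]; ring
  · simp

lemma cnt_a : cnt (fun a b d => a - 2 * b + 4 * d == 0) = 8051136 := by decide +kernel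

lemma cnt_w (w0 w1 w2 : ℤ) (h0 : w0 = 1 ∨ w0 = -1) (h1 : w1 = 1 ∨ w1 = -1)
    (h2 : w2 = 1 ∨ w2 = -1) : cnt (fun a b d => w0 * a + w1 * b + w2 * d == 0) ≤ 8050811 := by
  rcases h0 with rfl | rfl <;> rcases h1 with rfl | rfl <;> rcases h2 with rfl | rfl <;>
    decide +kernel

lemma cnt_ne : cnt (fun a b d => !(a == 0 && b == 0 && d == 0)) ≤ 8050811 := by decide +kernel

lemma cnt_mono {P Q : ℤ → ℤ → ℤ → Bool} (h : ∀ a b d, P a b d = true → Q a b d = true) :
    cnt P ≤ cnt Q := by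
  unfold cnt
  refine Finset.sum_le_sum fun a _ => Finset.sum_le_sum fun b _ => Finset.sum_le_sum fun d _ => ?_
  by_cases hP : P (v a) (v b) (v d) = true
  · simp [hP, h _ _ _ hP]
  · simp [hP]

lemma cnt_k (w0 w1 w2 k : ℤ) (h0 : w0 = 1 ∨ w0 = -1) (h1 : w1 = 1 ∨ w1 = -1)
    (h2 : w2 = 1 ∨ w2 = -1) : cnt (fun a b d => w0 * a + w1 * b + w2 * d == k) ≤ 8050811 := by
  by_cases hk : k = 0
  · subst hk; exact cnt_w _ _ _ h0 h1 h2
  · refine le_trans (cnt_mono fun a b d h => ?_) cnt_ne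
    simp only [beq_iff_eq, Bool.not_eq_eq_eq_not, Bool.not_true, Bool.and_eq_false_imp,
      Bool.and_eq_true, beq_eq_false_iff_ne] at h ⊢
    rintro ⟨rfl, rfl⟩ rfl
    apply hk; simpa using h.symm

theorem main (w : Fin 3 → ℤ) (hw : ∀ i, w i = 1 ∨ w i = -1) :
    ¬ Measure.pi (fun _ : Fin 3 => μ)
        {ω : Fin 3 → Fin 1 → ℤ |
          ∑ i, (![1, -2, 4] : Fin 3 → ℝ) i • (fun j => ((ω i j : ℤ) : ℝ)) = (0 : Fin 1 → ℝ)}
      ≤ ⨆ k : Fin 1 → ℤ, Measure.pi (fun _ : Fin 3 => μ)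
        {ω : Fin 3 → Fin 1 → ℤ | ∑ i, w i • ω i = k} := by
  rw [pi_apply _ (fun a b d => a - 2 * b + 4 * d == 0), cnt_a, not_le]
  · refine lt_of_le_of_lt (b := ((8050811 : ℕ) : ENNReal) * (234⁻¹) ^ 3) (iSup_le fun k => ?_) ?_
    · rw [pi_apply _ (fun a b d => w 0 * a + w 1 * b + w 2 * d == k 0)]
      · gcongr
        exact cnt_k _ _ _ _ (hw 0) (hw 1) (hw 2)
      · intro ω
        simp [funext_iff, Fin.sum_univ_three, Fin.forall_fin_one]
    · apply ENNReal.mul_lt_mul_left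
      · simp
      · simp
      · exact_mod_cast (by norm_num : 8050811 < 8051136)
  · intro ω
    simp only [Set.mem_ofPred_eq, funext_iff, Fin.sum_univ_three, Fin.forall_fin_one, beq_iff_eq]
    simp only [Pi.add_apply, Pi.smul_apply, smul_eq_mul, Pi.zero_apply]
    constructor
    · intro h
      have h' : ((ω 0 0 - 2 * ω 1 0 + 4 * ω 2 0 : ℤ) : ℝ) = 0 := by
        push_cast; simp at h; linarith
      exact_mod_cast h'
    · intro h
      have h' : ((ω 0 0 - 2 * ω 1 0 + 4 * ω 2 0 : ℤ) : ℝ) = 0 := by exact_mod_cast h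
      push_cast at h'; simp; linarith

end Pool.Agent.H606Z.LO
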