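import Mathlib

set_option autoImplicit false

namespace Pool.Agent.H606Z.TT

open Finset

/-- the Paley tournament on seven vertices -/
def qr (i j : ℕ) : Bool := (j + 7 - i) % 7 == 1 || (j + 7 - i) % 7 == 2 || (j + 7 - i) % 7 == 4

/-- the class of a unit: `1..6` independent parts, `0` the half-weight part, `7` the free part -/
def cl (u : ℕ) : ℕ := if u < 30 then u / 5 + 1 else if u < 41 then 0 else 7

/-- the reduced oriented graph on 47 units -/
def D (u w : ℕ) : Bool :=
  if 30 ≤ u && 30 ≤ w then (1 ≤ (w + 17 - u) % 17 && (w + 17 - u) % 17 ≤ 8)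
  else if cl u == 7 then qr (cl w) 0
  else if cl w == 7 then qr 0 (cl u)
  else qr (cl u) (cl w)

/-- doubled weights -/
def wt (u : ℕ) : ℕ := if u < 30 then 0 else if u < 41 then 1 else 2

lemma D_irrefl : ∀ u : Fin 47, D u u = false := by decide +kernel

lemma D_asymm : ∀ u w : Fin 47, D u w = true → D w u = false := by decide +kernel

lemma D_out : ∀ u : Fin 47, 21 ≤ (univ.filter fun w : Fin 47 => D u w = true).card := by
  decide +kernel

lemma D_in : ∀ u : Fin 47, 21 ≤ (univ.filter fun w : Fin 47 => D w u = true).card := by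
  decide +kernel

lemma D_cl : ∀ u w : Fin 47, D u w = true → wt u + wt w ≤ 1 → qr (cl u) (cl w) = true := by
  decide +kernel

lemma cl_lt : ∀ u : Fin 47, wt u ≤ 1 → cl u < 7 := by decide +kernel

lemma qr_free : ∀ a b c d : Fin 7, qr a b = true → qr a c = true → qr a d = true →
    qr b c = true → qr b d = true → qr c d = true → False := by decide +kernel

lemma wt_sum : ∑ u : Fin 47, wt u = 23 := by decide +kernel

lemma D_wt (f : Fin 4 → Fin 47) (h : ∀ i j : Fin 4, i < j → D (f i) (f j) = true) :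
    2 ≤ ∑ i, wt (f i) := by
  by_contra hc
  rw [Fin.sum_univ_four] at hc
  exact qr_free ⟨cl (f 0), cl_lt _ (by omega)⟩ ⟨cl (f 1), cl_lt _ (by omega)⟩
    ⟨cl (f 2), cl_lt _ (by omega)⟩ ⟨cl (f 3), cl_lt _ (by omega)⟩
    (D_cl _ _ (h 0 1 (by decide)) (by omega)) (D_cl _ _ (h 0 2 (by decide)) (by omega))
    (D_cl _ _ (h 0 3 (by decide)) (by omega)) (D_cl _ _ (h 1 2 (by decide)) (by omega))
    (D_cl _ _ (h 1 3 (by decide)) (by omega)) (D_cl _ _ (h 2 3 (by decide)) (by omega))

lemma ncard_blow (s : ℕ) (P : Fin 47 → Prop) [DecidablePred P] :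
    Set.ncard {w : Fin (s * 47) | P (finProdFinEquiv.symm w).2} =
      s * (univ.filter P).card := by
  have h1 : {w : Fin (s * 47) | P (finProdFinEquiv.symm w).2} =
      finProdFinEquiv '' ((univ ×ˢ (univ.filter P) : Finset (Fin s × Fin 47)) : Set _) := by
    ext w
    simp only [Set.mem_ofPred_eq, Set.mem_image, Finset.mem_coe, Finset.mem_product,
      Finset.mem_univ, Finset.mem_filter, true_and]
    constructor
    · intro h; exact ⟨_, h, finProdFinEquiv.apply_symm_apply w⟩
    · rintro ⟨x, hx, rfl⟩; simpa using hx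
  rw [h1, Set.ncard_image_of_injective _ finProdFinEquiv.injective, Set.ncard_coe_finset]
  simp

lemma t4_of (m : ℕ) (T : Fin m → Fin m → Prop) (hirr : ∀ x, ¬ T x x)
    (a b c d : Fin m) (hab : T a b) (hac : T a c) (had : T a d) (hbc : T b c) (hbd : T b d)
    (hcd : T c d) :
    ∃ f : Fin 4 → Fin m, Function.Injective f ∧ ∀ i j : Fin 4, i < j → T (f i) (f j) := by
  have key : ∀ i j : Fin 4, i < j → T (![a, b, c, d] i) (![a, b, c, d] j) := by
    intro i j hij
    fin_cases i <;> fin_cases j <;> simp_all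
  refine ⟨![a, b, c, d], ?_, key⟩
  intro i j hij
  by_contra hne
  rcases lt_or_gt_of_ne hne with h | h
  · have := key i j h
    rw [hij] at this; exact hirr _ this
  · have := key j i h
    rw [hij] at this; exact hirr _ this

lemma reg_four : IsGreatest {m : ℕ | ∃ T : Fin m → Fin m → Prop,
    (∀ x, ¬ T x x) ∧
    (∀ x y, x ≠ y → (T x y ↔ ¬ T y x)) ∧
    (∀ v, Set.ncard {w | T v w} = Set.ncard {w | T w v}) ∧
    ¬ ∃ f : Fin 4 → Fin m, Function.Injective f ∧
        ∀ i j : Fin 4, i < j → T (f i) (f j)} 7 := by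
  constructor
  · refine ⟨fun x y => qr x y = true, by decide, by decide, ?_, ?_⟩
    · intro v
      rw [Set.ncard_eq_toFinset_card', Set.ncard_eq_toFinset_card']
      simp only [Set.toFinset_ofPred]
      revert v; decide
    · rintro ⟨f, -, h⟩
      exact qr_free (f 0) (f 1) (f 2) (f 3) (h 0 1 (by decide)) (h 0 2 (by decide))
        (h 0 3 (by decide)) (h 1 2 (by decide)) (h 1 3 (by decide)) (h 2 3 (by decide))
  · rintro m ⟨T, hirr, htour, hreg, hfree⟩
    by_contra hm
    push Not at hm
    classical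
    let v : Fin m := ⟨0, by omega⟩
    have hcov : ({v}ᶜ : Set (Fin m)) ⊆ {w | T v w} ∪ {w | T w v} := by
      intro w hw
      by_cases h : T w v
      · exact Or.inr h
      · exact Or.inl ((htour v w (fun e => hw e.symm)).mpr h)
    have h1 := Set.ncard_le_ncard hcov
    have h2 := Set.ncard_union_le {w | T v w} {w | T w v}
    have h3 : ({v}ᶜ : Set (Fin m)).ncard = m - 1 := by
      rw [Set.ncard_compl]; simp
    have h4 : 3 < {w | T v w}.ncard := by have := hreg v; omega
    rw [Set.ncard_eq_toFinset_card'] at h4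
    obtain ⟨a, b, c, d, ha, hb, hc, hd, hab, hac, had, hbc, hbd, hcd⟩ :=
      Finset.three_lt_card_iff.mp h4
    simp only [Set.mem_toFinset, Set.mem_ofPred_eq] at ha hb hc hd
    apply hfree
    have F := t4_of m T hirr v
    have tot : ∀ x y, x ≠ y → T x y ∨ T y x := fun x y h => by
      by_cases h' : T y x
      · exact Or.inr h'
      · exact Or.inl ((htour x y h).mpr h')
    rcases tot a b hab with h1 | h1 <;> rcases tot a c hac with h2 | h2 <;>
      rcases tot a d had with h3 | h3 <;> rcases tot b c hbc with h4 | h4 <;>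
      rcases tot b d hbd with h5 | h5 <;> rcases tot c d hcd with h6 | h6 <;>
      first
        | exact F _ _ _ ha hb hc h1 h2 h4
        | exact F _ _ _ ha hc hb h2 h1 h4
        | exact F _ _ _ hb ha hc h1 h4 h2
        | exact F _ _ _ hb hc ha h4 h1 h2
        | exact F _ _ _ hc ha hb h2 h4 h1
        | exact F _ _ _ hc hb ha h4 h2 h1
        | exact F _ _ _ ha hb hd h1 h3 h5
        | exact F _ _ _ ha hd hb h3 h1 h5
        | exact F _ _ _ hb ha hd h1 h5 h3
        | exact F _ _ _ hb hd ha h5 h1 h3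
        | exact F _ _ _ hd ha hb h3 h5 h1
        | exact F _ _ _ hd hb ha h5 h3 h1
        | exact F _ _ _ ha hc hd h2 h3 h6
        | exact F _ _ _ ha hd hc h3 h2 h6
        | exact F _ _ _ hc ha hd h2 h6 h3
        | exact F _ _ _ hc hd ha h6 h2 h3
        | exact F _ _ _ hd ha hc h3 h6 h2
        | exact F _ _ _ hd hc ha h6 h3 h2

lemma no_tiling (s : ℕ) (hs : 0 < s) (h4 : 4 ∣ s * 47)
    (f : Fin (s * 47 / 4) → Fin 4 → Fin (s * 47))
    (hf : Function.Bijective (fun p : Fin (s * 47 / 4) × Fin 4 => f p.1 p.2))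
    (h : ∀ t, ∀ i j : Fin 4, i < j →
      D (finProdFinEquiv.symm (f t i)).2 (finProdFinEquiv.symm (f t j)).2 = true) : False := by
  have h1 : ∑ w : Fin (s * 47), wt (finProdFinEquiv.symm w).2 = s * 23 := by
    rw [Equiv.sum_comp finProdFinEquiv.symm (fun x : Fin s × Fin 47 => wt x.2),
      Fintype.sum_prod_type]
    simp [wt_sum]
  rw [← hf.sum_comp, Fintype.sum_prod_type] at h1
  have h2 : ∑ _t : Fin (s * 47 / 4), 2 ≤
      ∑ t : Fin (s * 47 / 4), ∑ i : Fin 4, wt (finProdFinEquiv.symm (f t i)).2 :=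
    Finset.sum_le_sum fun t _ => D_wt (fun i => (finProdFinEquiv.symm (f t i)).2) (h t)
  simp only [Finset.sum_const, Finset.card_univ, Fintype.card_fin, smul_eq_mul] at h2
  have h3 : s * 47 / 4 * 2 ≤ s * 23 := h2.trans (le_of_eq h1)
  omega

end Pool.Agent.H606Z.TT
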